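import Pool.Agent.Helper99.Ratio.Step

/-!
Iteration over the scales: the ratio limit inequality.
-/

set_option autoImplicit false

namespace RatioLimit
open Finset SimpleGraph H47Perc
open Pool.Agent.Helper69.RSW (P Dep Up P_mono P_congr P_restrict P_indep harris P_nonneg P_le_one)

variable {D : Finset (ℤ × ℤ)}

/-- admissible positions of `N + 1` slabs `[a i, b i)` with gaps `[b i, m i)`, `[m i, a (i+1))` -/
structure Scales (D : Finset (ℤ × ℤ)) (N : ℕ) (c : ℝ) (a m b : ℕ → ℤ) : Prop where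
  ab : ∀ i, a i ≤ b i
  bm : ∀ i, b i ≤ m i
  ma : ∀ i, m i ≤ a (i + 1)
  V1 : ∀ i < N, c ≤ P (Xe D (b i) (m i)) Gt
  V3 : ∀ i < N, c ≤ P (Xe D (m i) (a (i + 1))) Gt
  H : ∀ i < N, c ≤ P (Xe D (b i) (a (i + 1))) (Hc D (b i) (a (i + 1)))

/-- the first `n` slabs have crossings -/
def gd (D : Finset (ℤ × ℤ)) (a b : ℕ → ℤ) : ℕ → Cfg → Prop
  | 0 => fun _ => True
  | n + 1 => fun ω => gd D a b n ω ∧ Gt (ω ∩ Xe D (a n) (b n))

lemma gd_dep {a m b : ℕ → ℤ} {N : ℕ} {c : ℝ} (h : Scales D N c a m b) (n : ℕ) :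
    Dep (Lf D (a n)) (gd D a b n) := by
  induction n with
  | zero => exact fun _ => Iff.rfl
  | succ n ih =>
    have h1 : Lf D (a n) ⊆ Lf D (a (n + 1)) := by
      intro e he
      rw [mem_Lf] at he ⊢
      have := h.ab n; have := h.bm n; have := h.ma n
      exact ⟨he.1, by omega⟩
    have h2 : Xe D (a n) (b n) ⊆ Lf D (a (n + 1)) := by
      intro e he
      rw [mem_Xe] at he; rw [mem_Lf]
      have := h.ab n; have := h.bm n; have := h.ma n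
      exact ⟨he.1, by omega⟩
    refine (ih.mono h1).and ?_
    intro S
    show Gt (S ∩ Xe D (a n) (b n)) ↔ Gt (S ∩ Lf D (a (n + 1)) ∩ Xe D (a n) (b n))
    rw [inter_assoc, inter_eq_right.2 h2]

lemma gd_up (a b : ℕ → ℤ) (n : ℕ) : Up (gd D a b n) := by
  induction n with
  | zero => exact fun _ _ _ _ => trivial
  | succ n ih =>
    rintro S T hST ⟨h1, h2⟩
    exact ⟨ih S T hST h1, h2.mono (inter_subset_inter_right hST)⟩

lemma mono_a {a m b : ℕ → ℤ} {N : ℕ} {c : ℝ} (h : Scales D N c a m b) (n : ℕ) : a 0 ≤ a n := by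
  induction n with
  | zero => exact le_rfl
  | succ n ih => have := h.ab n; have := h.bm n; have := h.ma n; omega

lemma uu_nonneg (A : Cfg → Prop) (X : Finset (ℤ × ℤ)) (k : ℤ) (s : Cfg) : 0 ≤ uu D A X k s :=
  Ex_nonneg fun _ _ => ind_nonneg _
lemma gg_nonneg (Y : Finset (ℤ × ℤ)) (k : ℤ) (s : Cfg) : 0 ≤ gg D Y k s :=
  Ex_nonneg fun _ _ => ind_nonneg _
lemma mm_nonneg (k k' : ℤ) (s s' : Cfg) : 0 ≤ mm D k k' s s' := Ex_nonneg fun _ _ => ind_nonneg _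
lemma al_nonneg (k k' : ℤ) (s : Cfg) : 0 ≤ al D k k' s := Ex_nonneg fun _ _ => ind_nonneg _
lemma be_nonneg (k k' : ℤ) (s : Cfg) : 0 ≤ be D k k' s := Ex_nonneg fun _ _ => ind_nonneg _

lemma Gt_of_ind {s : Cfg} (h : ind (Gt s) ≠ 0) : Gt s := by
  by_contra h'; exact h (ind_false h')

/-- recursion along the scales -/
lemma uu_rec (hD : ∀ z ∈ D, z ∈ wedge) {a m b : ℕ → ℤ} {N : ℕ} {c : ℝ} (h : Scales D N c a m b)
    {X : Finset (ℤ × ℤ)} (hXD : X ⊆ D) (hX : ∀ x ∈ X, x.1 ≤ a 0) (n : ℕ) {s' : Cfg}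
    (hs' : s' ⊆ Xe D (a (n + 1)) (b (n + 1))) (hG' : Gt s') :
    uu D (gd D a b (n + 1)) X (a (n + 1)) s' = Ex (Xe D (a n) (b n)) (fun s =>
      ind (Gt s) * uu D (gd D a b n) X (a n) s * mm D (b n) (a (n + 1)) s s') :=
  recursion hD (h.ab n) ((h.bm n).trans (h.ma n)) (gd_dep h n) hXD
    (fun x hx => (hX x hx).trans (mono_a h n)) hs' hG'

/-- degenerate case -/
lemma uu_zero (hD : ∀ z ∈ D, z ∈ wedge) {a m b : ℕ → ℤ} {N : ℕ} {c : ℝ} (h : Scales D N c a m b)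
    {X : Finset (ℤ × ℤ)} (hXD : X ⊆ D) (hX : ∀ x ∈ X, x.1 ≤ a 0)
    (h0 : Ex (Xe D (a 0) (b 0)) (fun s => ind (Gt s) * uu D (gd D a b 0) X (a 0) s *
      al D (b 0) (m 0) s) = 0) (n : ℕ) {s' : Cfg}
    (hs' : s' ⊆ Xe D (a (n + 1)) (b (n + 1))) (hG' : Gt s') :
    uu D (gd D a b (n + 1)) X (a (n + 1)) s' = 0 := by
  induction n generalizing s' with
  | zero =>
    rw [uu_rec hD h hXD hX 0 hs' hG']
    apply le_antisymm _ (Ex_nonneg fun s _ => mul_nonneg (mul_nonneg (ind_nonneg _)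
      (uu_nonneg _ _ _ _)) (mm_nonneg _ _ _ _))
    have : Ex (Xe D (a 0) (b 0)) (fun s =>
      ind (Gt s) * uu D (gd D a b 0) X (a 0) s * mm D (b 0) (a (0 + 1)) s s') ≤
      be D (m 0) (a 1) s' * Ex (Xe D (a 0) (b 0)) (fun s => ind (Gt s) *
        uu D (gd D a b 0) X (a 0) s * al D (b 0) (m 0) s) := by
      rw [← Ex_const_mul]
      refine Ex_mono fun s hs => ?_
      by_cases hG : Gt s
      · have h1 := mm_le (h.bm 0) (h.ma 0) hs hs' hG hG'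
        have h2 := mul_le_mul_of_nonneg_left h1 (mul_nonneg (ind_nonneg (Gt s))
          (uu_nonneg (D := D) (gd D a b 0) X (a 0) s))
        calc _ ≤ _ := h2
          _ = _ := by ring
      · rw [ind_false hG]; simp
    rw [h0, mul_zero] at this
    exact this
  | succ n ih =>
    rw [uu_rec hD h hXD hX (n + 1) hs' hG']
    have : ∀ s ⊆ Xe D (a (n + 1)) (b (n + 1)), ind (Gt s) * uu D (gd D a b (n + 1)) X (a (n + 1)) s *
        mm D (b (n + 1)) (a (n + 1 + 1)) s s' = 0 * (0 : ℝ) := by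
      intro s hs
      by_cases hG : Gt s
      · rw [ih hs hG]; ring
      · rw [ind_false hG]; ring
    rw [Ex_congr this, Ex_const_mul, zero_mul]

/-- contraction along the scales -/
lemma contraction (hD : ∀ z ∈ D, z ∈ wedge) {a m b : ℕ → ℤ} {N : ℕ} {c : ℝ} (hc : 0 < c)
    (hc1 : c ≤ 1) (h : Scales D N c a m b)
    {X Y : Finset (ℤ × ℤ)} (hXD : X ⊆ D) (hX : ∀ x ∈ X, x.1 ≤ a 0)
    (hYD : Y ⊆ D) (hY : ∀ x ∈ Y, x.1 ≤ a 0)
    (hU : 0 < Ex (Xe D (a 0) (b 0)) (fun s => ind (Gt s) * uu D (gd D a b 0) X (a 0) s *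
      al D (b 0) (m 0) s))
    (hV : 0 < Ex (Xe D (a 0) (b 0)) (fun s => ind (Gt s) * uu D (gd D a b 0) Y (a 0) s *
      al D (b 0) (m 0) s)) :
    ∃ l : ℝ, 0 < l ∧ ∀ n, n < N → ∃ lam Lam : ℝ, c ^ 3 * l ≤ lam ∧ lam ≤ Lam ∧
      Lam - lam ≤ (1 - c ^ 3) ^ n * (l / c ^ 3) ∧
      ∀ s, (s ⊆ Xe D (a (n + 1)) (b (n + 1)) ∧ Gt s) →
        lam * uu D (gd D a b (n + 1)) Y (a (n + 1)) s ≤ uu D (gd D a b (n + 1)) X (a (n + 1)) s ∧
        uu D (gd D a b (n + 1)) X (a (n + 1)) s ≤ Lam * uu D (gd D a b (n + 1)) Y (a (n + 1)) s := by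
  have hc3 : 0 < c ^ 3 := by positivity
  have hc31 : c ^ 3 ≤ 1 := pow_le_one₀ hc.le hc1
  rcases Nat.eq_zero_or_pos N with hN | hN
  · exact ⟨1, one_pos, fun n hn => absurd hn (by omega)⟩
  obtain ⟨l, hl, hfirst⟩ := hopf_first (F := Xe D (a 0) (b 0))
    (T := fun t => t ⊆ Xe D (a 1) (b 1) ∧ Gt t) (w := fun s => ind (Gt s))
    (a := fun s => al D (b 0) (m 0) s) (b := fun s => be D (m 0) (a 1) s)
    (u := fun s => uu D (gd D a b 0) X (a 0) s) (v := fun s => uu D (gd D a b 0) Y (a 0) s)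
    (m := fun s t => mm D (b 0) (a 1) s t) (c := c ^ 3)
    (fun s _ => ind_nonneg _) hc3
    (fun s hs t ht hw => le_mm hD hc (h.bm 0) (h.ma 0) (h.V1 0 hN) (h.V3 0 hN) (h.H 0 hN)
      hs ht.1 (Gt_of_ind hw) ht.2)
    (fun s hs t ht hw => mm_le (h.bm 0) (h.ma 0) hs ht.1 (Gt_of_ind hw) ht.2)
    (fun s _ _ => uu_nonneg _ _ _ _) (fun s _ _ => uu_nonneg _ _ _ _) hU hV
  refine ⟨l, hl, ?_⟩
  intro n
  induction n with
  | zero =>
    intro _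
    refine ⟨c ^ 3 * l, l / c ^ 3, le_rfl, ?_, ?_, ?_⟩
    · rw [le_div_iff₀ hc3]
      have : c ^ 3 * c ^ 3 ≤ 1 := mul_le_one₀ hc31 hc3.le hc31
      nlinarith
    · rw [pow_zero, one_mul]
      have : 0 < c ^ 3 * l := by positivity
      linarith
    · intro s hs
      rw [uu_rec hD h hXD hX 0 hs.1 hs.2, uu_rec hD h hYD hY 0 hs.1 hs.2]
      exact hfirst s hs
  | succ n ih =>
    intro hn
    obtain ⟨lam, Lam, h1, h2, h3, h4⟩ := ih (by omega)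
    obtain ⟨lam', Lam', g1, g2, g3, g4, g5⟩ := hopf_step (F := Xe D (a (n + 1)) (b (n + 1)))
      (T := fun t => t ⊆ Xe D (a (n + 2)) (b (n + 2)) ∧ Gt t) (w := fun s => ind (Gt s))
      (a := fun s => al D (b (n + 1)) (m (n + 1)) s)
      (b := fun s => be D (m (n + 1)) (a (n + 2)) s)
      (u := fun s => uu D (gd D a b (n + 1)) X (a (n + 1)) s)
      (v := fun s => uu D (gd D a b (n + 1)) Y (a (n + 1)) s)
      (m := fun s t => mm D (b (n + 1)) (a (n + 2)) s t) (c := c ^ 3) (lam := lam) (Lam := Lam)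
      (fun s _ => ind_nonneg _) (fun s _ => al_nonneg _ _ _) (fun t _ => be_nonneg _ _ _) hc3 hc31
      (fun s hs t ht hw => le_mm hD hc (h.bm (n + 1)) (h.ma (n + 1)) (h.V1 (n + 1) hn)
        (h.V3 (n + 1) hn) (h.H (n + 1) hn) hs ht.1 (Gt_of_ind hw) ht.2)
      (fun s hs t ht hw => mm_le (h.bm (n + 1)) (h.ma (n + 1)) hs ht.1 (Gt_of_ind hw) ht.2)
      (fun s _ _ => uu_nonneg _ _ _ _)
      (fun s hs hw => (h4 s ⟨hs, Gt_of_ind hw⟩).1) (fun s hs hw => (h4 s ⟨hs, Gt_of_ind hw⟩).2) h2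
    refine ⟨lam', Lam', h1.trans g1, g2, ?_, ?_⟩
    · have h5 : 0 ≤ 1 - c ^ 3 := by linarith
      calc Lam' - lam' ≤ (1 - c ^ 3) * (Lam - lam) := g4
        _ ≤ (1 - c ^ 3) * ((1 - c ^ 3) ^ n * (l / c ^ 3)) := mul_le_mul_of_nonneg_left h3 h5
        _ = (1 - c ^ 3) ^ (n + 1) * (l / c ^ 3) := by ring
    · intro s hs
      rw [uu_rec hD h hXD hX (n + 1) hs.1 hs.2, uu_rec hD h hYD hY (n + 1) hs.1 hs.2]
      exact g5 s hs

/-- **Ratio limit inequality.**  `X`, `Y` near, `F`, `F'` far. -/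
theorem chain (hD : ∀ z ∈ D, z ∈ wedge) {a m b : ℕ → ℤ} {N : ℕ} {c : ℝ} (hc : 0 < c)
    (hc1 : c ≤ 1) (hN : 0 < N) (h : Scales D N c a m b) (hg : 0 < P (edgesIn D) (gd D a b (N + 1)))
    {X Y F F' : Finset (ℤ × ℤ)} (hXD : X ⊆ D) (hX : ∀ x ∈ X, x.1 ≤ a 0)
    (hYD : Y ⊆ D) (hY : ∀ x ∈ Y, x.1 ≤ a 0)
    (hFD : F ⊆ D) (hF : ∀ x ∈ F, b N ≤ x.1) (hFD' : F' ⊆ D) (hF' : ∀ x ∈ F', b N ≤ x.1) :
    P (edgesIn D) (JJ X F) * P (edgesIn D) (JJ Y F') * P (edgesIn D) (gd D a b (N + 1)) ^ 2 ≤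
      (1 + (1 - c ^ 3) ^ (N - 1) / (c ^ 3) ^ 2) *
        (P (edgesIn D) (JJ Y F) * P (edgesIn D) (JJ X F')) := by
  have hc3 : 0 < c ^ 3 := by positivity
  have hc31 : c ^ 3 ≤ 1 := pow_le_one₀ hc.le hc1
  set pg := P (edgesIn D) (gd D a b (N + 1)) with hpg
  -- the truncated quantities
  have Q1 : ∀ Z W : Finset (ℤ × ℤ), P (edgesIn D) (JJ Z W) * pg ≤
      P (edgesIn D) (fun ω => gd D a b (N + 1) ω ∧ JJ Z W ω) := by
    intro Z W
    rw [mul_comm]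
    exact harris (edgesIn D) (gd_up a b (N + 1)) (JJ_up Z W)
  have Q2 : ∀ Z W : Finset (ℤ × ℤ), P (edgesIn D) (fun ω => gd D a b (N + 1) ω ∧ JJ Z W ω) ≤
      P (edgesIn D) (JJ Z W) := fun Z W => P_mono fun ω _ h => h.2
  have Q3 : ∀ Z W : Finset (ℤ × ℤ), Z ⊆ D → (∀ x ∈ Z, x.1 ≤ a 0) → W ⊆ D → (∀ x ∈ W, b N ≤ x.1) →
      P (edgesIn D) (fun ω => gd D a b (N + 1) ω ∧ JJ Z W ω) =
      Ex (Xe D (a N) (b N)) (fun s => ind (Gt s) * uu D (gd D a b N) Z (a N) s * gg D W (b N) s) := by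
    intro Z W h1 h2 h3 h4
    rw [P_eq]
    exact last_step hD (h.ab N) (gd_dep h N) h1 (fun x hx => (h2 x hx).trans (mono_a h N)) h3 h4
  have hnn : ∀ Z W : Finset (ℤ × ℤ), 0 ≤ P (edgesIn D) (JJ Z W) := fun Z W => P_nonneg _ _
  have hfac : 0 ≤ 1 + (1 - c ^ 3) ^ (N - 1) / (c ^ 3) ^ 2 := by
    have : 0 ≤ (1 - c ^ 3) ^ (N - 1) / (c ^ 3) ^ 2 :=
      div_nonneg (pow_nonneg (by linarith) _) (by positivity)
    linarith
  obtain ⟨N', rfl⟩ : ∃ N', N = N' + 1 := ⟨N - 1, by omega⟩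
  -- degenerate cases
  have hdeg : ∀ Z : Finset (ℤ × ℤ), Z ⊆ D → (∀ x ∈ Z, x.1 ≤ a 0) →
      (Ex (Xe D (a 0) (b 0)) (fun s => ind (Gt s) * uu D (gd D a b 0) Z (a 0) s *
        al D (b 0) (m 0) s) = 0) → ∀ W : Finset (ℤ × ℤ), W ⊆ D → (∀ x ∈ W, b (N' + 1) ≤ x.1) →
      P (edgesIn D) (JJ Z W) = 0 := by
    intro Z h1 h2 h0 W h3 h4
    have e : P (edgesIn D) (fun ω => gd D a b (N' + 1 + 1) ω ∧ JJ Z W ω) = 0 := by
      rw [Q3 Z W h1 h2 h3 h4]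
      have : ∀ s ⊆ Xe D (a (N' + 1)) (b (N' + 1)), ind (Gt s) *
          uu D (gd D a b (N' + 1)) Z (a (N' + 1)) s * gg D W (b (N' + 1)) s = 0 * (0 : ℝ) := by
        intro s hs
        by_cases hG : Gt s
        · rw [uu_zero hD h h1 h2 h0 N' hs hG]; ring
        · rw [ind_false hG]; ring
      rw [Ex_congr this, Ex_const_mul, zero_mul]
    have h5 := Q1 Z W
    rw [e] at h5
    have h6 := mul_nonneg (hnn Z W) hg.le
    have h7 : P (edgesIn D) (JJ Z W) * pg = 0 := le_antisymm h5 h6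
    exact (mul_eq_zero.1 h7).resolve_right hg.ne'
  by_cases hU : 0 < Ex (Xe D (a 0) (b 0)) (fun s => ind (Gt s) * uu D (gd D a b 0) X (a 0) s *
      al D (b 0) (m 0) s)
  swap
  · have h0 := le_antisymm (not_lt.1 hU) (Ex_nonneg fun s _ => mul_nonneg (mul_nonneg (ind_nonneg _)
      (uu_nonneg _ _ _ _)) (al_nonneg _ _ _))
    rw [hdeg X hXD hX h0 F hFD hF]
    simp only [zero_mul]
    exact mul_nonneg hfac (mul_nonneg (hnn _ _) (hnn _ _))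
  by_cases hV : 0 < Ex (Xe D (a 0) (b 0)) (fun s => ind (Gt s) * uu D (gd D a b 0) Y (a 0) s *
      al D (b 0) (m 0) s)
  swap
  · have h0 := le_antisymm (not_lt.1 hV) (Ex_nonneg fun s _ => mul_nonneg (mul_nonneg (ind_nonneg _)
      (uu_nonneg _ _ _ _)) (al_nonneg _ _ _))
    rw [hdeg Y hYD hY h0 F' hFD' hF']
    simp only [mul_zero, zero_mul]
    exact mul_nonneg hfac (mul_nonneg (hnn _ _) (hnn _ _))
  obtain ⟨l, hl, hcon⟩ := contraction hD hc hc1 h hXD hX hYD hY hU hV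
  obtain ⟨lam, Lam, h1, h2, h3, h4⟩ := hcon N' (by omega)
  have hlam : 0 < lam := lt_of_lt_of_le (by positivity) h1
  have hLam : 0 < Lam := lt_of_lt_of_le hlam h2
  -- comparison of the truncated quantities
  have C1 : P (edgesIn D) (fun ω => gd D a b (N' + 1 + 1) ω ∧ JJ X F ω) ≤
      Lam * P (edgesIn D) (fun ω => gd D a b (N' + 1 + 1) ω ∧ JJ Y F ω) := by
    rw [Q3 X F hXD hX hFD hF, Q3 Y F hYD hY hFD hF, ← Ex_const_mul]
    refine Ex_mono fun s hs => ?_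
    by_cases hG : Gt s
    · have h5 := (h4 s ⟨hs, hG⟩).2
      have h6 := mul_le_mul_of_nonneg_right (mul_le_mul_of_nonneg_left h5 (ind_nonneg (Gt s)))
        (gg_nonneg (D := D) F (b (N' + 1)) s)
      calc _ ≤ _ := h6
        _ = _ := by ring
    · rw [ind_false hG]; simp
  have C2 : lam * P (edgesIn D) (fun ω => gd D a b (N' + 1 + 1) ω ∧ JJ Y F' ω) ≤
      P (edgesIn D) (fun ω => gd D a b (N' + 1 + 1) ω ∧ JJ X F' ω) := by
    rw [Q3 X F' hXD hX hFD' hF', Q3 Y F' hYD hY hFD' hF', ← Ex_const_mul]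
    refine Ex_mono fun s hs => ?_
    by_cases hG : Gt s
    · have h5 := (h4 s ⟨hs, hG⟩).1
      have h6 := mul_le_mul_of_nonneg_right (mul_le_mul_of_nonneg_left h5 (ind_nonneg (Gt s)))
        (gg_nonneg (D := D) F' (b (N' + 1)) s)
      calc _ = _ := by ring
        _ ≤ _ := h6
    · rw [ind_false hG]; simp
  set qXF := P (edgesIn D) (fun ω => gd D a b (N' + 1 + 1) ω ∧ JJ X F ω) with hq1
  set qYF := P (edgesIn D) (fun ω => gd D a b (N' + 1 + 1) ω ∧ JJ Y F ω) with hq2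
  set qXF' := P (edgesIn D) (fun ω => gd D a b (N' + 1 + 1) ω ∧ JJ X F' ω) with hq3
  set qYF' := P (edgesIn D) (fun ω => gd D a b (N' + 1 + 1) ω ∧ JJ Y F' ω) with hq4
  have n1 : 0 ≤ qXF := P_nonneg _ _
  have n2 : 0 ≤ qYF := P_nonneg _ _
  have n3 : 0 ≤ qXF' := P_nonneg _ _
  have n4 : 0 ≤ qYF' := P_nonneg _ _
  have hrat : Lam / lam ≤ 1 + (1 - c ^ 3) ^ N' / (c ^ 3) ^ 2 := by
    rw [div_le_iff₀ hlam]
    have h5 : (1 - c ^ 3) ^ N' * (l / c ^ 3) ≤ (1 - c ^ 3) ^ N' / (c ^ 3) ^ 2 * lam := by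
      have h6 : 0 ≤ (1 - c ^ 3) ^ N' / (c ^ 3) ^ 2 :=
        div_nonneg (pow_nonneg (by linarith) _) (by positivity)
      calc (1 - c ^ 3) ^ N' * (l / c ^ 3) = (1 - c ^ 3) ^ N' / (c ^ 3) ^ 2 * (c ^ 3 * l) := by
            field_simp
        _ ≤ _ := mul_le_mul_of_nonneg_left h1 h6
    rw [add_mul, one_mul]
    linarith
  calc P (edgesIn D) (JJ X F) * P (edgesIn D) (JJ Y F') * pg ^ 2
      = (P (edgesIn D) (JJ X F) * pg) * (P (edgesIn D) (JJ Y F') * pg) := by ring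
    _ ≤ qXF * qYF' := mul_le_mul (Q1 X F) (Q1 Y F') (mul_nonneg (hnn _ _) hg.le) n1
    _ ≤ (Lam * qYF) * (qXF' / lam) := by
        refine mul_le_mul C1 ?_ n4 (mul_nonneg hLam.le n2)
        rw [le_div_iff₀ hlam, mul_comm]; exact C2
    _ = (Lam / lam) * (qYF * qXF') := by ring
    _ ≤ (1 + (1 - c ^ 3) ^ N' / (c ^ 3) ^ 2) * (qYF * qXF') :=
        mul_le_mul_of_nonneg_right hrat (mul_nonneg n2 n3)
    _ ≤ (1 + (1 - c ^ 3) ^ N' / (c ^ 3) ^ 2) *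
        (P (edgesIn D) (JJ Y F) * P (edgesIn D) (JJ X F')) := by
        refine mul_le_mul_of_nonneg_left ?_ hfac
        exact mul_le_mul (Q2 Y F) (Q2 X F') n3 (hnn _ _)

end RatioLimit
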