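import Pool.Agent.Helper46.RSW.RSW
import Pool.Agent.Helper47.Perc.Arms

/-!
Expectations over uniform finite configurations, Fubini, and the contraction lemma.
-/

set_option autoImplicit false
set_option linter.unusedSectionVars false

namespace RatioLimit
open Finset
open Pool.Agent.Helper69.RSW (P Dep Up)

variable {E : Type*} [DecidableEq E]

/-- expectation over the uniform random subset of `F` -/
noncomputable def Ex (F : Finset E) (f : Finset E → ℝ) : ℝ := (∑ S ∈ F.powerset, f S) / 2 ^ F.card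

open Classical in
/-- indicator -/
noncomputable def ind (p : Prop) : ℝ := if p then 1 else 0

lemma ind_nonneg (p : Prop) : 0 ≤ ind p := by unfold ind; split_ifs <;> norm_num
lemma ind_le_one (p : Prop) : ind p ≤ 1 := by unfold ind; split_ifs <;> norm_num
lemma ind_true {p : Prop} (h : p) : ind p = 1 := by unfold ind; rw [if_pos h]
lemma ind_false {p : Prop} (h : ¬ p) : ind p = 0 := by unfold ind; rw [if_neg h]
lemma ind_and (p q : Prop) : ind (p ∧ q) = ind p * ind q := by
  by_cases hp : p <;> by_cases hq : q <;> simp [ind, hp, hq]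
lemma ind_mono {p q : Prop} (h : p → q) : ind p ≤ ind q := by
  by_cases hp : p
  · rw [ind_true hp, ind_true (h hp)]
  · rw [ind_false hp]; exact ind_nonneg q
lemma ind_congr {p q : Prop} (h : p ↔ q) : ind p = ind q := by rw [propext h]

lemma P_eq (F : Finset E) (A : Finset E → Prop) : P F A = Ex F (fun S => ind (A S)) := by
  classical
  unfold P Ex ind
  congr 1
  rw [Finset.sum_boole]

lemma Ex_congr {F : Finset E} {f g : Finset E → ℝ} (h : ∀ S ⊆ F, f S = g S) : Ex F f = Ex F g := by
  unfold Ex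
  rw [Finset.sum_congr rfl fun S hS => h S (mem_powerset.1 hS)]

lemma Ex_mono {F : Finset E} {f g : Finset E → ℝ} (h : ∀ S ⊆ F, f S ≤ g S) : Ex F f ≤ Ex F g := by
  unfold Ex
  exact div_le_div_of_nonneg_right (Finset.sum_le_sum fun S hS => h S (mem_powerset.1 hS))
    (by positivity)

lemma Ex_nonneg {F : Finset E} {f : Finset E → ℝ} (h : ∀ S ⊆ F, 0 ≤ f S) : 0 ≤ Ex F f := by
  unfold Ex
  exact div_nonneg (Finset.sum_nonneg fun S hS => h S (mem_powerset.1 hS)) (by positivity)

lemma Ex_const_mul (F : Finset E) (c : ℝ) (f : Finset E → ℝ) :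
    Ex F (fun S => c * f S) = c * Ex F f := by
  unfold Ex
  rw [← Finset.mul_sum, mul_div_assoc]

lemma Ex_mul_const (F : Finset E) (c : ℝ) (f : Finset E → ℝ) :
    Ex F (fun S => f S * c) = Ex F f * c := by
  unfold Ex
  rw [← Finset.sum_mul, div_mul_eq_mul_div]

lemma Ex_add (F : Finset E) (f g : Finset E → ℝ) :
    Ex F (fun S => f S + g S) = Ex F f + Ex F g := by
  unfold Ex
  rw [Finset.sum_add_distrib, add_div]

lemma Ex_sub (F : Finset E) (f g : Finset E → ℝ) :
    Ex F (fun S => f S - g S) = Ex F f - Ex F g := by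
  unfold Ex
  rw [Finset.sum_sub_distrib, sub_div]

lemma Ex_comm (F G : Finset E) (f : Finset E → Finset E → ℝ) :
    Ex F (fun S => Ex G (fun T => f S T)) = Ex G (fun T => Ex F (fun S => f S T)) := by
  unfold Ex
  rw [← Finset.sum_div, ← Finset.sum_div, Finset.sum_comm]
  rw [div_div, div_div, mul_comm]

/-- Fubini -/
lemma Ex_union {F G : Finset E} (hFG : Disjoint F G) (f : Finset E → ℝ) :
    Ex (F ∪ G) f = Ex F (fun S => Ex G (fun T => f (S ∪ T))) := by
  unfold Ex
  rw [Finset.card_union_of_disjoint hFG, pow_add, ← Finset.sum_div, div_div]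
  rw [mul_comm (2 ^ F.card : ℝ)]
  congr 1
  rw [← Finset.sum_product']
  symm
  apply Finset.sum_nbij' (i := fun p : Finset E × Finset E => p.1 ∪ p.2)
    (j := fun S => (S ∩ F, S ∩ G))
  · rintro ⟨S, T⟩ h
    simp only [Finset.mem_product, Finset.mem_powerset] at h ⊢
    exact Finset.union_subset_union h.1 h.2
  · intro S h
    simp only [Finset.mem_product, Finset.mem_powerset] at h ⊢
    exact ⟨Finset.inter_subset_right, Finset.inter_subset_right⟩
  · rintro ⟨S, T⟩ h
    simp only [Finset.mem_product, Finset.mem_powerset] at h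
    obtain ⟨h1, h3⟩ := h
    have e1 : (S ∪ T) ∩ F = S := by
      rw [Finset.union_inter_distrib_right, Finset.inter_eq_left.2 h1,
        Finset.disjoint_iff_inter_eq_empty.1 (hFG.symm.mono_left h3), Finset.union_empty]
    have e2 : (S ∪ T) ∩ G = T := by
      rw [Finset.union_inter_distrib_right, Finset.inter_eq_left.2 h3,
        Finset.disjoint_iff_inter_eq_empty.1 (hFG.mono_left h1), Finset.empty_union]
    simp only [e1, e2]
  · intro S h
    simp only [Finset.mem_powerset] at h
    simp only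
    rw [← Finset.inter_union_distrib_left, Finset.inter_eq_left.2 h]
  · rintro ⟨S, T⟩ _
    rfl

/-- One step of the Birkhoff-Hopf contraction.  `w` weights, `m` a kernel comparable to the rank one
kernel `a ⊗ b` (lower constant `c`). -/
theorem hopf_step {F : Finset E} {T : Finset E → Prop} {w a b u v : Finset E → ℝ}
    {m : Finset E → Finset E → ℝ} {c lam Lam : ℝ}
    (hw : ∀ s ⊆ F, 0 ≤ w s) (ha : ∀ s ⊆ F, 0 ≤ a s) (hb : ∀ t, T t → 0 ≤ b t)
    (hc : 0 < c) (hc1 : c ≤ 1)
    (hm1 : ∀ s ⊆ F, ∀ t, T t → w s ≠ 0 → c * (a s * b t) ≤ m s t)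
    (hm2 : ∀ s ⊆ F, ∀ t, T t → w s ≠ 0 → m s t ≤ a s * b t)
    (hv : ∀ s ⊆ F, w s ≠ 0 → 0 ≤ v s)
    (h1 : ∀ s ⊆ F, w s ≠ 0 → lam * v s ≤ u s) (h2 : ∀ s ⊆ F, w s ≠ 0 → u s ≤ Lam * v s)
    (hlL : lam ≤ Lam) :
    ∃ lam' Lam' : ℝ, lam ≤ lam' ∧ lam' ≤ Lam' ∧ Lam' ≤ Lam ∧ Lam' - lam' ≤ (1 - c) * (Lam - lam) ∧
      ∀ t, T t → lam' * Ex F (fun s => w s * v s * m s t) ≤ Ex F (fun s => w s * u s * m s t) ∧
        Ex F (fun s => w s * u s * m s t) ≤ Lam' * Ex F (fun s => w s * v s * m s t) := by
  set p := Ex F (fun s => w s * (u s - lam * v s) * a s) with hp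
  set p' := Ex F (fun s => w s * (Lam * v s - u s) * a s) with hp'
  set q := Ex F (fun s => w s * v s * a s) with hq
  have hq0 : 0 ≤ q := Ex_nonneg fun s hs => by
    by_cases h : w s = 0
    · rw [h]; simp
    · exact mul_nonneg (mul_nonneg (hw s hs) (hv s hs h)) (ha s hs)
  have hp0 : 0 ≤ p := Ex_nonneg fun s hs => by
    by_cases h : w s = 0
    · rw [h]; simp
    · exact mul_nonneg (mul_nonneg (hw s hs) (sub_nonneg.2 (h1 s hs h))) (ha s hs)
  have hp0' : 0 ≤ p' := Ex_nonneg fun s hs => by
    by_cases h : w s = 0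
    · rw [h]; simp
    · exact mul_nonneg (mul_nonneg (hw s hs) (sub_nonneg.2 (h2 s hs h))) (ha s hs)
  have hpp : p + p' = (Lam - lam) * q := by
    rw [hp, hp', hq, ← Ex_add, ← Ex_const_mul]
    exact Ex_congr fun s _ => by ring
  -- values
  have V : ∀ t, T t → Ex F (fun s => w s * v s * m s t) ≤ b t * q := by
    intro t ht
    rw [hq, ← Ex_const_mul]
    refine Ex_mono fun s hs => ?_
    by_cases h : w s = 0
    · rw [h]; simp
    · have := mul_le_mul_of_nonneg_left (hm2 s hs t ht h) (mul_nonneg (hw s hs) (hv s hs h))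
      calc w s * v s * m s t ≤ w s * v s * (a s * b t) := this
        _ = _ := by ring
  have V0 : ∀ t, T t → 0 ≤ Ex F (fun s => w s * v s * m s t) := by
    intro t ht
    refine Ex_nonneg fun s hs => ?_
    by_cases h : w s = 0
    · rw [h]; simp
    · have h3 := hm1 s hs t ht h
      have h4 : 0 ≤ c * (a s * b t) := mul_nonneg hc.le (mul_nonneg (ha s hs) (hb t ht))
      exact mul_nonneg (mul_nonneg (hw s hs) (hv s hs h)) (h4.trans h3)
  have U1 : ∀ t, T t → c * b t * p ≤ Ex F (fun s => w s * u s * m s t) -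
      lam * Ex F (fun s => w s * v s * m s t) := by
    intro t ht
    have e : Ex F (fun s => w s * u s * m s t) - lam * Ex F (fun s => w s * v s * m s t) =
        Ex F (fun s => w s * u s * m s t - lam * (w s * v s * m s t)) := by
      rw [Ex_sub, Ex_const_mul]
    rw [e, hp, ← Ex_const_mul]
    refine Ex_mono fun s hs => ?_
    by_cases h : w s = 0
    · rw [h]; simp
    · have := mul_le_mul_of_nonneg_left (hm1 s hs t ht h)
        (mul_nonneg (hw s hs) (sub_nonneg.2 (h1 s hs h)))
      calc c * b t * (w s * (u s - lam * v s) * a s) =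
          w s * (u s - lam * v s) * (c * (a s * b t)) := by ring
        _ ≤ _ := this
        _ = _ := by ring
  have U2 : ∀ t, T t → c * b t * p' ≤ Lam * Ex F (fun s => w s * v s * m s t) -
      Ex F (fun s => w s * u s * m s t) := by
    intro t ht
    have e : Lam * Ex F (fun s => w s * v s * m s t) - Ex F (fun s => w s * u s * m s t) =
        Ex F (fun s => Lam * (w s * v s * m s t) - w s * u s * m s t) := by
      rw [Ex_sub, Ex_const_mul]
    rw [e, hp', ← Ex_const_mul]
    refine Ex_mono fun s hs => ?_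
    by_cases h : w s = 0
    · rw [h]; simp
    · have := mul_le_mul_of_nonneg_left (hm1 s hs t ht h)
        (mul_nonneg (hw s hs) (sub_nonneg.2 (h2 s hs h)))
      calc c * b t * (w s * (Lam * v s - u s) * a s) =
          w s * (Lam * v s - u s) * (c * (a s * b t)) := by ring
        _ ≤ _ := this
        _ = _ := by ring
  rcases hq0.eq_or_lt with hq1 | hq1
  · -- degenerate case
    refine ⟨lam, lam, le_rfl, le_rfl, hlL, ?_, fun t ht => ?_⟩
    · rw [sub_self]; exact mul_nonneg (by linarith) (by linarith)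
    · have e1 : Ex F (fun s => w s * v s * m s t) = 0 := by
        have := V t ht; rw [← hq1, mul_zero] at this; exact le_antisymm this (V0 t ht)
      have e2 : Ex F (fun s => w s * u s * m s t) = 0 := by
        have a1 := U1 t ht
        have a2 := U2 t ht
        have b1 : 0 ≤ c * b t * p := mul_nonneg (mul_nonneg hc.le (hb t ht)) hp0
        have b2 : 0 ≤ c * b t * p' := mul_nonneg (mul_nonneg hc.le (hb t ht)) hp0'
        rw [e1] at a1 a2
        linarith
      rw [e1, e2]; simp
  · have hx : p / q + p' / q = Lam - lam := by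
      rw [← add_div, hpp, mul_div_assoc, div_self hq1.ne', mul_one]
    have hx1 : 0 ≤ p / q := div_nonneg hp0 hq1.le
    have hx2 : 0 ≤ p' / q := div_nonneg hp0' hq1.le
    refine ⟨lam + c * (p / q), Lam - c * (p' / q), ?_, ?_, ?_, ?_, fun t ht => ⟨?_, ?_⟩⟩
    · have := mul_nonneg hc.le hx1; linarith
    · have h3 : c * (p / q) + c * (p' / q) = c * (Lam - lam) := by rw [← mul_add, hx]
      have h4 : c * (Lam - lam) ≤ Lam - lam := mul_le_of_le_one_left (by linarith) hc1
      linarith
    · have := mul_nonneg hc.le hx2; linarith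
    · have h3 : c * (p / q) + c * (p' / q) = c * (Lam - lam) := by rw [← mul_add, hx]
      have h5 : Lam - c * (p' / q) - (lam + c * (p / q)) = (Lam - lam) - c * (Lam - lam) := by
        linarith
      rw [h5]; linarith
    · have h3 := U1 t ht
      have h4 : c * (p / q) * Ex F (fun s => w s * v s * m s t) ≤ c * b t * p := by
        have := mul_le_mul_of_nonneg_left (V t ht) (mul_nonneg hc.le hx1)
        calc _ ≤ c * (p / q) * (b t * q) := this
          _ = c * b t * (p / q * q) := by ring
          _ = c * b t * p := by rw [div_mul_cancel₀ _ hq1.ne']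
      rw [add_mul]; linarith
    · have h3 := U2 t ht
      have h4 : c * (p' / q) * Ex F (fun s => w s * v s * m s t) ≤ c * b t * p' := by
        have := mul_le_mul_of_nonneg_left (V t ht) (mul_nonneg hc.le hx2)
        calc _ ≤ c * (p' / q) * (b t * q) := this
          _ = c * b t * (p' / q * q) := by ring
          _ = c * b t * p' := by rw [div_mul_cancel₀ _ hq1.ne']
      rw [sub_mul]; linarith

/-- The first step: comparability. -/
theorem hopf_first {F : Finset E} {T : Finset E → Prop} {w a b u v : Finset E → ℝ}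
    {m : Finset E → Finset E → ℝ} {c : ℝ}
    (hw : ∀ s ⊆ F, 0 ≤ w s) (hc : 0 < c)
    (hm1 : ∀ s ⊆ F, ∀ t, T t → w s ≠ 0 → c * (a s * b t) ≤ m s t)
    (hm2 : ∀ s ⊆ F, ∀ t, T t → w s ≠ 0 → m s t ≤ a s * b t)
    (hu : ∀ s ⊆ F, w s ≠ 0 → 0 ≤ u s) (hv : ∀ s ⊆ F, w s ≠ 0 → 0 ≤ v s)
    (hU : 0 < Ex F (fun s => w s * u s * a s)) (hV : 0 < Ex F (fun s => w s * v s * a s)) :
    ∃ l : ℝ, 0 < l ∧ ∀ t, T t →
      c * l * Ex F (fun s => w s * v s * m s t) ≤ Ex F (fun s => w s * u s * m s t) ∧
      Ex F (fun s => w s * u s * m s t) ≤ (l / c) * Ex F (fun s => w s * v s * m s t) := by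
  set U := Ex F (fun s => w s * u s * a s) with hUd
  set V := Ex F (fun s => w s * v s * a s) with hVd
  have up : ∀ (f : Finset E → ℝ), (∀ s ⊆ F, w s ≠ 0 → 0 ≤ f s) → ∀ t, T t →
      Ex F (fun s => w s * f s * m s t) ≤ b t * Ex F (fun s => w s * f s * a s) := by
    intro f hf t ht
    rw [← Ex_const_mul]
    refine Ex_mono fun s hs => ?_
    by_cases h : w s = 0
    · rw [h]; simp
    · have := mul_le_mul_of_nonneg_left (hm2 s hs t ht h) (mul_nonneg (hw s hs) (hf s hs h))
      calc w s * f s * m s t ≤ w s * f s * (a s * b t) := this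
        _ = _ := by ring
  have lo : ∀ (f : Finset E → ℝ), (∀ s ⊆ F, w s ≠ 0 → 0 ≤ f s) → ∀ t, T t →
      c * (b t * Ex F (fun s => w s * f s * a s)) ≤ Ex F (fun s => w s * f s * m s t) := by
    intro f hf t ht
    rw [← Ex_const_mul, ← Ex_const_mul]
    refine Ex_mono fun s hs => ?_
    by_cases h : w s = 0
    · rw [h]; simp
    · have := mul_le_mul_of_nonneg_left (hm1 s hs t ht h) (mul_nonneg (hw s hs) (hf s hs h))
      calc c * (b t * (w s * f s * a s)) = w s * f s * (c * (a s * b t)) := by ring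
        _ ≤ _ := this
  refine ⟨U / V, div_pos hU hV, fun t ht => ⟨?_, ?_⟩⟩
  · have h1 := up v hv t ht
    have h2 := lo u hu t ht
    calc c * (U / V) * Ex F (fun s => w s * v s * m s t) ≤ c * (U / V) * (b t * V) :=
          mul_le_mul_of_nonneg_left h1 (by positivity)
      _ = c * (b t * (U / V * V)) := by ring
      _ = c * (b t * U) := by rw [div_mul_cancel₀ _ hV.ne']
      _ ≤ _ := h2
  · have h1 := up u hu t ht
    have h2 := lo v hv t ht
    calc Ex F (fun s => w s * u s * m s t) ≤ b t * U := h1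
      _ = (U / V / c) * (c * (b t * V)) := by
          field_simp
      _ ≤ (U / V / c) * Ex F (fun s => w s * v s * m s t) :=
          mul_le_mul_of_nonneg_left h2 (by positivity)

end RatioLimit
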