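import Pool.Agent.Helper99.Ratio.Ex

/-!
Geometry of the wedge `{x + y ≥ 0, x - y ≥ 1}`: slabs `k ≤ x < k'`, crossings of slabs from the
lower side to the upper side, and the fact that every path from the left to the right of a slab
meets every crossing of the slab.
-/

set_option autoImplicit false

namespace RatioLimit
open Finset SimpleGraph H47Perc
open Pool.Agent.Helper69.RSW (P Dep Up)

abbrev Cfg := Finset (Sym2 (ℤ × ℤ))

/-- the wedge -/
def wedge : Set (ℤ × ℤ) := {z | 0 ≤ z.1 + z.2 ∧ 1 ≤ z.1 - z.2}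

/-- the smaller first coordinate of the two endpoints -/
def mn (e : Sym2 (ℤ × ℤ)) : ℤ := Sym2.lift ⟨fun u v => min u.1 v.1, fun _ _ => min_comm _ _⟩ e

lemma mn_mk (u v : ℤ × ℤ) : mn s(u, v) = min u.1 v.1 := rfl

/-- edges of `D` with `k ≤ mn e < k'` -/
noncomputable def Xe (D : Finset (ℤ × ℤ)) (k k' : ℤ) : Cfg :=
  (edgesIn D).filter (fun e => k ≤ mn e ∧ mn e < k')
/-- edges of `D` with `mn e < k` -/
noncomputable def Lf (D : Finset (ℤ × ℤ)) (k : ℤ) : Cfg := (edgesIn D).filter (fun e => mn e < k)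
/-- edges of `D` with `k ≤ mn e` -/
noncomputable def Rt (D : Finset (ℤ × ℤ)) (k : ℤ) : Cfg := (edgesIn D).filter (fun e => k ≤ mn e)

lemma mem_Xe {D : Finset (ℤ × ℤ)} {k k' : ℤ} {e : Sym2 (ℤ × ℤ)} :
    e ∈ Xe D k k' ↔ e ∈ edgesIn D ∧ k ≤ mn e ∧ mn e < k' := by unfold Xe; rw [mem_filter]
lemma mem_Lf {D : Finset (ℤ × ℤ)} {k : ℤ} {e : Sym2 (ℤ × ℤ)} :
    e ∈ Lf D k ↔ e ∈ edgesIn D ∧ mn e < k := by unfold Lf; rw [mem_filter]
lemma mem_Rt {D : Finset (ℤ × ℤ)} {k : ℤ} {e : Sym2 (ℤ × ℤ)} :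
    e ∈ Rt D k ↔ e ∈ edgesIn D ∧ k ≤ mn e := by unfold Rt; rw [mem_filter]

lemma edge_lattice {D : Finset (ℤ × ℤ)} {e : Sym2 (ℤ × ℤ)} (he : e ∈ edgesIn D) :
    e ∈ lattice.edgeSet := by
  classical
  unfold edgesIn at he
  exact (mem_filter.1 he).2

lemma adj_le {u v : ℤ × ℤ} (h : lattice.Adj u v) : u.1 ≤ v.1 + 1 ∧ v.1 ≤ u.1 + 1 := by
  rcases h with ⟨h1, _⟩ | ⟨_, h2⟩
  · omega
  · rw [abs_eq (by norm_num)] at h2; omega

/-- `c` is joined in `s` to the lower and to the upper side of the wedge -/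
def Cr (s : Cfg) (c : ℤ × ℤ) : Prop :=
  ∃ lo up : ℤ × ℤ, lo.1 + lo.2 = 0 ∧ up.1 - up.2 = 1 ∧ Joined s c lo ∧ Joined s c up

/-- there is a crossing -/
def Gt (s : Cfg) : Prop := ∃ c, Cr s c

open Classical in
/-- a point of a crossing -/
noncomputable def cc (s : Cfg) : ℤ × ℤ := if h : Gt s then h.choose else (0, 0)

lemma cc_spec {s : Cfg} (h : Gt s) : Cr s (cc s) := by
  unfold cc; rw [dif_pos h]; exact h.choose_spec

lemma Cr.mono {s t : Cfg} (h : s ⊆ t) {c : ℤ × ℤ} (hc : Cr s c) : Cr t c := by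
  obtain ⟨lo, up, h1, h2, h3, h4⟩ := hc
  exact ⟨lo, up, h1, h2, joined_mono h h3, joined_mono h h4⟩

lemma Gt.mono {s t : Cfg} (h : s ⊆ t) (hs : Gt s) : Gt t := by
  obtain ⟨c, hc⟩ := hs; exact ⟨c, hc.mono h⟩

/-- a nontrivial connection in the slab starts in the slab -/
lemma vert_of_joined {D : Finset (ℤ × ℤ)} {k k' : ℤ} {s : Cfg} (hs : s ⊆ Xe D k k')
    {u v : ℤ × ℤ} (h : Joined s u v) (huv : u ≠ v) : u ∈ D ∧ k ≤ u.1 ∧ u.1 ≤ k' := by
  obtain ⟨p⟩ := h
  cases p with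
  | nil => exact absurd rfl huv
  | @cons _ b _ hab p =>
    rw [SimpleGraph.fromEdgeSet_adj] at hab
    have hab1 : s(u, b) ∈ s := by exact_mod_cast hab.1
    have h1 := mem_Xe.1 (hs hab1)
    rw [mn_mk, mem_edgesIn] at h1
    have h2 := adj_le h1.1.2.2
    refine ⟨h1.1.1, ?_, ?_⟩ <;> omega

lemma Cr.vert {D : Finset (ℤ × ℤ)} {k k' : ℤ} {s : Cfg} (hs : s ⊆ Xe D k k') {c : ℤ × ℤ}
    (hc : Cr s c) : c ∈ D ∧ k ≤ c.1 ∧ c.1 ≤ k' := by
  obtain ⟨lo, up, h1, h2, h3, h4⟩ := hc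
  by_cases h : c = lo
  · exact vert_of_joined hs h4 (by rw [h]; intro h5; rw [h5] at h1; omega)
  · exact vert_of_joined hs h3 h

lemma list_bound (l : List (ℤ × ℤ)) : ∃ H : ℤ, ∀ w ∈ l, |w.2| ≤ H := by
  induction l with
  | nil => exact ⟨0, by simp⟩
  | cons a l ih =>
    obtain ⟨H, hH⟩ := ih
    refine ⟨max |a.2| H, ?_⟩
    intro w hw
    rw [List.mem_cons] at hw
    rcases hw with rfl | hw
    · exact le_max_left _ _
    · exact (hH w hw).trans (le_max_right _ _)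

lemma vwalk (x y : ℤ) (n : ℕ) : ∃ p : lattice.Walk (x, y + n) (x, y),
    ∀ w ∈ p.support, w.1 = x ∧ y ≤ w.2 ∧ w.2 ≤ y + n := by
  induction n with
  | zero =>
    have e : (x, y + ((0 : ℕ) : ℤ)) = (x, y) := by simp
    rw [e]
    exact ⟨Walk.nil, by simp⟩
  | succ n ih =>
    obtain ⟨p, hp⟩ := ih
    have hadj : lattice.Adj (x, y + ((n + 1 : ℕ) : ℤ)) (x, y + (n : ℤ)) := by
      left
      refine ⟨rfl, ?_⟩
      show |(y + ((n + 1 : ℕ) : ℤ)) - (y + (n : ℤ))| = 1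
      rw [show (y + ((n + 1 : ℕ) : ℤ)) - (y + (n : ℤ)) = 1 by push_cast; ring]; norm_num
    refine ⟨Walk.cons hadj p, ?_⟩
    intro w hw
    rw [Walk.support_cons, List.mem_cons] at hw
    rcases hw with rfl | hw
    · refine ⟨rfl, ?_, le_rfl⟩
      show y ≤ y + ((n + 1 : ℕ) : ℤ)
      omega
    · have := hp w hw
      push_cast; omega

/-- **Meeting lemma**: a path in the wedge from the left to the right of a slab meets every crossing
of the slab. -/
theorem meet {D : Finset (ℤ × ℤ)} {k k' : ℤ} {s : Cfg} (hs : s ⊆ Xe D k k') {c : ℤ × ℤ}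
    (hc : Cr s c) {a b : ℤ × ℤ} (q : lattice.Walk a b) (hq : ∀ w ∈ q.support, w ∈ wedge)
    (ha : a.1 ≤ k) (hb : k' ≤ b.1) : ∃ w ∈ q.support, Joined s c w := by
  classical
  obtain ⟨lo, up, h1, h2, h3, h4⟩ := hc
  have hne : up ≠ lo := by rintro rfl; omega
  have hul : Joined s up lo := joined_trans (joined_symm h4) h3
  have hse : ∀ e ∈ s, e ∈ lattice.edgeSet := fun e he => edge_lattice (mem_Xe.1 (hs he)).1
  obtain ⟨p0, hp0⟩ := joined_walk hse hul
  have hp0j : ∀ w ∈ p0.support, Joined s up w := fun w hw =>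
    walk_joined (p0.takeUntil w hw) (fun e he => hp0 e (p0.edges_takeUntil_subset_edges hw he))
  have hp0x : ∀ w ∈ p0.support, k ≤ w.1 ∧ w.1 ≤ k' := by
    intro w hw
    by_cases h : w = up
    · subst h; exact (vert_of_joined hs hul hne).2
    · exact (vert_of_joined hs (joined_symm (hp0j w hw)) h).2
  have hupx := hp0x up p0.start_mem_support
  have hlox := hp0x lo p0.end_mem_support
  obtain ⟨H0, hH0⟩ := list_bound (up :: lo :: q.support)
  -- a height
  set H : ℤ := H0 + 1 with hH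
  have bu : |up.2| ≤ H0 := hH0 up (by simp)
  have bl : |lo.2| ≤ H0 := hH0 lo (by simp)
  have bq : ∀ w ∈ q.support, |w.2| ≤ H0 := fun w hw => hH0 w (by simp [hw])
  rw [abs_le] at bu bl
  have hH0n : 0 ≤ H0 := by omega
  obtain ⟨n1, hn1⟩ : ∃ n : ℕ, H = up.2 + n := ⟨(H - up.2).toNat, by omega⟩
  obtain ⟨n2, hn2⟩ : ∃ n : ℕ, lo.2 = -H + n := ⟨(lo.2 + H).toNat, by omega⟩
  obtain ⟨p1, hp1⟩ := vwalk up.1 up.2 n1
  obtain ⟨p2, hp2⟩ := vwalk lo.1 (-H) n2
  have e1 : ((up.1, up.2) : ℤ × ℤ) = up := rfl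
  have e2 : ((lo.1, -H + (n2 : ℤ)) : ℤ × ℤ) = lo := by rw [← hn2]
  obtain ⟨w, hw1, hw2⟩ : ∃ w, w ∈ ((p1.copy (by rw [← hn1]) e1).append
      (p0.append (p2.copy e2 rfl))).support ∧ w ∈ q.support := by
    apply crossing_walks (u := (up.1, H)) (v := (lo.1, -H))
    · simp only; omega
    · intro w hw
      have := bq w hw
      rw [abs_le] at this
      simp only; omega
    · intro w hw
      rw [Walk.mem_support_append_iff, Walk.mem_support_append_iff, Walk.support_copy,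
        Walk.support_copy] at hw
      rcases hw with hw | hw | hw
      · have := hp1 w hw; omega
      · have := hp0x w hw; omega
      · have := hp2 w hw; omega
    · intro w hw
      rw [Walk.mem_support_append_iff, Walk.mem_support_append_iff, Walk.support_copy,
        Walk.support_copy] at hw
      rcases hw with hw | hw | hw
      · have := hp1 w hw; omega
      · have := hp0x w hw; omega
      · have := hp2 w hw; omega
  refine ⟨w, hw2, ?_⟩
  have hww := hq w hw2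
  obtain ⟨hw3, hw4⟩ := hww
  rw [Walk.mem_support_append_iff, Walk.mem_support_append_iff, Walk.support_copy,
    Walk.support_copy] at hw1
  rcases hw1 with hw | hw | hw
  · have h5 := hp1 w hw
    have : w = up := Prod.ext h5.1 (by omega)
    rw [this]; exact h4
  · exact joined_trans h4 (hp0j w hw)
  · have h5 := hp2 w hw
    have : w = lo := Prod.ext h5.1 (by omega)
    rw [this]; exact h3

/-- the part of a walk up to the first vertex with a property -/
theorem first_visit' {V : Type*} {G : SimpleGraph V} (S : V → Prop) {a b : V} (q : G.Walk a b)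
    (h : S b) : ∃ c, S c ∧ (S a → c = a) ∧ (¬ S a → ∃ w, G.Adj w c ∧ ¬ S w) ∧
      ∃ q₁ : G.Walk a c, (∀ e ∈ q₁.edges, e ∈ q.edges) ∧
      (∀ w ∈ q₁.support, w ∈ q.support) ∧ (∀ w ∈ q₁.support, w ≠ c → ¬ S w) ∧
      (∀ e ∈ q₁.edges, ∃ w ∈ e, ¬ S w) := by
  classical
  induction q with
  | nil => exact ⟨_, h, fun _ => rfl, fun h' => absurd h h', Walk.nil, by simp, by simp, by simp,
      by simp⟩
  | @cons a c b hadj q ih =>
    by_cases h2 : S a
    · refine ⟨a, h2, fun _ => rfl, fun h' => absurd h2 h', Walk.nil, by simp, ?_, ?_, by simp⟩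
      · intro w hw
        rw [Walk.support_nil, List.mem_singleton] at hw
        subst hw; simp
      · intro w hw hne
        rw [Walk.support_nil, List.mem_singleton] at hw
        exact absurd hw hne
    · obtain ⟨d, hd, hd1, hd2, q₁, h3, h4, h5, h6⟩ := ih h
      refine ⟨d, hd, fun h' => absurd h' h2, fun _ => ?_, Walk.cons hadj q₁, ?_, ?_, ?_, ?_⟩
      · by_cases hc : S c
        · rw [hd1 hc]; exact ⟨a, hadj, h2⟩
        · exact hd2 hc
      · intro e he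
        rw [Walk.edges_cons, List.mem_cons] at he ⊢
        exact he.imp_right (h3 e)
      · intro w hw
        rw [Walk.support_cons, List.mem_cons] at hw ⊢
        exact hw.imp_right (h4 w)
      · intro w hw hne
        rw [Walk.support_cons, List.mem_cons] at hw
        rcases hw with rfl | hw
        · exact h2
        · exact h5 w hw hne
      · intro e he
        rw [Walk.edges_cons, List.mem_cons] at he
        rcases he with rfl | he
        · exact ⟨a, Sym2.mem_mk_left _ _, h2⟩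
        · exact h6 e he

theorem first_visit {V : Type*} {G : SimpleGraph V} (S : V → Prop) {a b : V} (q : G.Walk a b)
    (h : S b) : ∃ c, S c ∧ ∃ q₁ : G.Walk a c, (∀ e ∈ q₁.edges, e ∈ q.edges) ∧
      (∀ w ∈ q₁.support, w ∈ q.support) ∧ (∀ w ∈ q₁.support, w ≠ c → ¬ S w) ∧
      (∀ e ∈ q₁.edges, ∃ w ∈ e, ¬ S w) := by
  obtain ⟨c, hc, _, _, q₁, h1⟩ := first_visit' S q h
  exact ⟨c, hc, q₁, h1⟩

/-- an edge of `D` with a vertex of first coordinate `< k` has `mn < k` -/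
lemma mn_lt_of_mem {e : Sym2 (ℤ × ℤ)} {w : ℤ × ℤ} (hw : w ∈ e) {k : ℤ} (h : w.1 < k) : mn e < k := by
  induction e using Sym2.ind with
  | _ u v =>
    rw [mn_mk]
    rw [Sym2.mem_iff] at hw
    rcases hw with rfl | rfl
    · exact lt_of_le_of_lt (min_le_left _ _) h
    · exact lt_of_le_of_lt (min_le_right _ _) h

lemma le_mn_of_mem {D : Finset (ℤ × ℤ)} {e : Sym2 (ℤ × ℤ)} (he : e ∈ edgesIn D) {w : ℤ × ℤ}
    (hw : w ∈ e) {k : ℤ} (h : k < w.1) : k ≤ mn e := by
  induction e using Sym2.ind with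
  | _ u v =>
    rw [mn_mk]
    rw [mem_edgesIn] at he
    have h2 := adj_le he.2.2
    rw [Sym2.mem_iff] at hw
    rcases hw with rfl | rfl <;> exact le_min (by omega) (by omega)

/-- a connection from the left of `k'` to a point with first coordinate `≥ k'` uses only edges on
the left until it reaches `x ≥ k'` -/
lemma reach_right {D : Finset (ℤ × ℤ)} {ω : Cfg} (hω : ω ⊆ edgesIn D) {a b : ℤ × ℤ} {k : ℤ}
    (h : Joined ω a b) (hb : k ≤ b.1) : ∃ v, k ≤ v.1 ∧ Joined (ω ∩ Lf D k) a v := by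
  obtain ⟨q, hq⟩ := joined_walk (fun e he => edge_lattice (hω he)) h
  obtain ⟨c, hc, q₁, h1, h2, h3, h4⟩ := first_visit (fun w : ℤ × ℤ => k ≤ w.1) q hb
  refine ⟨c, hc, walk_joined q₁ fun e he => ?_⟩
  have he1 := hq e (h1 e he)
  rw [mem_inter, mem_Lf]
  refine ⟨he1, hω he1, ?_⟩
  obtain ⟨w, hw1, hw2⟩ := h4 e he
  exact mn_lt_of_mem hw1 (not_le.1 hw2)

lemma reach_left {D : Finset (ℤ × ℤ)} {ω : Cfg} (hω : ω ⊆ edgesIn D) {a b : ℤ × ℤ} {k : ℤ}
    (h : Joined ω a b) (hb : b.1 ≤ k) : ∃ v, v.1 ≤ k ∧ Joined (ω ∩ Rt D k) a v := by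
  obtain ⟨q, hq⟩ := joined_walk (fun e he => edge_lattice (hω he)) h
  obtain ⟨c, hc, q₁, h1, h2, h3, h4⟩ := first_visit (fun w : ℤ × ℤ => w.1 ≤ k) q hb
  refine ⟨c, hc, walk_joined q₁ fun e he => ?_⟩
  have he1 := hq e (h1 e he)
  rw [mem_inter, mem_Rt]
  refine ⟨he1, hω he1, ?_⟩
  obtain ⟨w, hw1, hw2⟩ := h4 e he
  exact le_mn_of_mem (hω he1) hw1 (not_le.1 hw2)

/-- **Cutting lemma, left part** -/
theorem cut_left {D : Finset (ℤ × ℤ)} (hD : ∀ z ∈ D, z ∈ wedge) {k k' : ℤ} {ω s : Cfg}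
    (hω : ω ⊆ edgesIn D) (hs : s ⊆ Xe D k k') (hsω : s ⊆ ω) {c : ℤ × ℤ} (hc : Cr s c)
    {a b : ℤ × ℤ} (haD : a ∈ D) (h : Joined ω a b) (ha : a.1 ≤ k) (hb : k' ≤ b.1) :
    Joined (ω ∩ Lf D k') a c := by
  obtain ⟨q, hq⟩ := joined_walk (fun e he => edge_lattice (hω he)) h
  have hqD := support_subset q (fun e he => hω (hq e he)) haD
  obtain ⟨d, hd, q₁, h1, h2, h3, h4⟩ := first_visit (fun w : ℤ × ℤ => k' ≤ w.1 ∨ Joined s c w) q
    (Or.inl hb)
  have hj : Joined (ω ∩ Lf D k') a d := walk_joined q₁ fun e he => by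
    have he1 := hq e (h1 e he)
    rw [mem_inter, mem_Lf]
    refine ⟨he1, hω he1, ?_⟩
    obtain ⟨w, hw1, hw2⟩ := h4 e he
    exact mn_lt_of_mem hw1 (not_le.1 fun h => hw2 (Or.inl h))
  have hsL : s ⊆ ω ∩ Lf D k' := fun e he => by
    rw [mem_inter, mem_Lf]
    have := mem_Xe.1 (hs he)
    exact ⟨hsω he, this.1, this.2.2⟩
  have hcd : Joined s c d := by
    rcases hd with hd | hd
    · obtain ⟨w, hw1, hw2⟩ := meet hs hc q₁ (fun w hw => hD w (hqD w (h2 w hw))) ha hd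
      by_cases hwd : w = d
      · rwa [← hwd]
      · exact absurd (Or.inr hw2) (h3 w hw1 hwd)
    · exact hd
  exact joined_trans hj (joined_symm (joined_mono hsL hcd))

/-- **Cutting lemma, right part** -/
theorem cut_right {D : Finset (ℤ × ℤ)} (hD : ∀ z ∈ D, z ∈ wedge) {k k' : ℤ} {ω s : Cfg}
    (hω : ω ⊆ edgesIn D) (hs : s ⊆ Xe D k k') (hsω : s ⊆ ω) {c : ℤ × ℤ} (hc : Cr s c)
    {a b : ℤ × ℤ} (hbD : b ∈ D) (h : Joined ω a b) (ha : a.1 ≤ k) (hb : k' ≤ b.1) :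
    Joined (ω ∩ Rt D k) c b := by
  obtain ⟨q, hq⟩ := joined_walk (fun e he => edge_lattice (hω he)) (joined_symm h)
  have hqD := support_subset q (fun e he => hω (hq e he)) hbD
  obtain ⟨d, hd, q₁, h1, h2, h3, h4⟩ := first_visit (fun w : ℤ × ℤ => w.1 ≤ k ∨ Joined s c w) q
    (Or.inl ha)
  have hj : Joined (ω ∩ Rt D k) b d := walk_joined q₁ fun e he => by
    have he1 := hq e (h1 e he)
    rw [mem_inter, mem_Rt]
    refine ⟨he1, hω he1, ?_⟩
    obtain ⟨w, hw1, hw2⟩ := h4 e he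
    exact le_mn_of_mem (hω he1) hw1 (not_le.1 fun h => hw2 (Or.inl h))
  have hsR : s ⊆ ω ∩ Rt D k := fun e he => by
    rw [mem_inter, mem_Rt]
    have := mem_Xe.1 (hs he)
    exact ⟨hsω he, this.1, this.2.1⟩
  have hcd : Joined s c d := by
    rcases hd with hd | hd
    · obtain ⟨w, hw1, hw2⟩ := meet hs hc q₁.reverse (fun w hw => by
        rw [Walk.support_reverse, List.mem_reverse] at hw
        exact hD w (hqD w (h2 w hw))) hd hb
      rw [Walk.support_reverse, List.mem_reverse] at hw1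
      by_cases hwd : w = d
      · rwa [← hwd]
      · exact absurd (Or.inr hw2) (h3 w hw1 hwd)
    · exact hd
  exact joined_trans (joined_mono hsR hcd) (joined_symm hj)

/-- every path from left to right is joined to the crossing -/
theorem meet_joined {D : Finset (ℤ × ℤ)} (hD : ∀ z ∈ D, z ∈ wedge) {k k' : ℤ} {ω s : Cfg}
    (hω : ω ⊆ edgesIn D) (hs : s ⊆ Xe D k k') (hsω : s ⊆ ω) {c : ℤ × ℤ} (hc : Cr s c)
    {a b : ℤ × ℤ} (haD : a ∈ D) (h : Joined ω a b) (ha : a.1 ≤ k) (hb : k' ≤ b.1) :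
    Joined ω a c :=
  joined_mono inter_subset_left (cut_left hD hω hs hsω hc haD h ha hb)

end RatioLimit
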