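import Pool.Agent.Helper99.Ratio.StripG
import Pool.Agent.Helper78.K.Result

/-!
The macroscopic form: connection probabilities between arbitrary sets near the two bottom corners of a
long diagonal rectangle.
-/

set_option autoImplicit false

namespace RatioLimit
open Finset SimpleGraph H47Perc Filter Topology

/-! ### the reflection -/

/-- the reflection that exchanges the two bottom corners -/
def rf (w : ℤ) : ℤ × ℤ ≃ ℤ × ℤ where
  toFun z := (w - z.2, w - z.1)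
  invFun z := (w - z.2, w - z.1)
  left_inv z := by ext <;> simp
  right_inv z := by ext <;> simp

@[simp] lemma rf_apply (w : ℤ) (z : ℤ × ℤ) : rf w z = (w - z.2, w - z.1) := rfl
@[simp] lemma rf_symm (w : ℤ) : (rf w).symm = rf w := rfl

lemma rf_iso (w : ℤ) : IsIso (rf w) := by
  rintro ⟨a, b⟩ ⟨c, d⟩
  unfold lattice
  simp only [rf_apply]
  constructor
  · rintro (⟨h1, h2⟩ | ⟨h1, h2⟩)
    · right
      refine ⟨by omega, ?_⟩
      rw [show (a - c : ℤ) = -(w - a - (w - c)) by ring, abs_neg]; exact h2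
    · left
      refine ⟨by omega, ?_⟩
      rw [show (b - d : ℤ) = -(w - b - (w - d)) by ring, abs_neg]; exact h2
  · rintro (⟨h1, h2⟩ | ⟨h1, h2⟩)
    · right
      refine ⟨by omega, ?_⟩
      rw [show (w - b - (w - d) : ℤ) = -(b - d) by ring, abs_neg]; exact h2
    · left
      refine ⟨by omega, ?_⟩
      rw [show (w - a - (w - c) : ℤ) = -(a - c) by ring, abs_neg]; exact h2

lemma hs_rf (w N : ℕ) : (IPK.hs (2 * w) N).map (rf w).toEmbedding = IPK.hs (2 * w) N := by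
  ext z
  rw [mem_map_equiv, IPK.mem_hs, IPK.mem_hs, rf_symm, rf_apply]
  push_cast
  constructor <;> intro h <;> refine ⟨?_, ?_, ?_, ?_⟩ <;> omega

lemma JJ_map {f : ℤ × ℤ ≃ ℤ × ℤ} {X Y : Finset (ℤ × ℤ)} {ω : Cfg} :
    JJ (X.map f.toEmbedding) (Y.map f.toEmbedding) (ω.map (emb f)) ↔ JJ X Y ω := by
  constructor
  · rintro ⟨x, hx, y, hy, hj⟩
    rw [Finset.mem_map] at hx hy
    obtain ⟨x', hx', rfl⟩ := hx
    obtain ⟨y', hy', rfl⟩ := hy
    exact ⟨x', hx', y', hy', joined_map.1 hj⟩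
  · rintro ⟨x, hx, y, hy, hj⟩
    exact ⟨f x, mem_map_of_mem _ hx, f y, mem_map_of_mem _ hy, joined_map.2 hj⟩

lemma perc_JJ_rf (w N : ℕ) (X Y : Finset (ℤ × ℤ)) :
    perc half (IPK.hs (2 * w) N) (JJ (X.map (rf w).toEmbedding) (Y.map (rf w).toEmbedding)) =
      perc half (IPK.hs (2 * w) N) (JJ X Y) := by
  conv_lhs => rw [← hs_rf w N, perc_half_map (rf_iso w)]
  exact le_antisymm (perc_half_mono fun ω _ h => JJ_map.1 h) (perc_half_mono fun ω _ h => JJ_map.2 h)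

lemma JJ_symm {X Y : Finset (ℤ × ℤ)} {ω : Cfg} (h : JJ X Y ω) : JJ Y X ω := by
  obtain ⟨x, hx, y, hy, hj⟩ := h
  exact ⟨y, hy, x, hx, joined_symm hj⟩

lemma perc_JJ_symm (D X Y : Finset (ℤ × ℤ)) : perc half D (JJ X Y) = perc half D (JJ Y X) :=
  le_antisymm (perc_half_mono fun _ _ h => JJ_symm h) (perc_half_mono fun _ _ h => JJ_symm h)

/-- the points of `D` on the line `x + y = t` -/
def side (D : Finset (ℤ × ℤ)) (t : ℤ) : Finset (ℤ × ℤ) := D.filter (fun z => z.1 + z.2 = t)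

lemma mem_side {D : Finset (ℤ × ℤ)} {t : ℤ} {z : ℤ × ℤ} : z ∈ side D t ↔ z ∈ D ∧ z.1 + z.2 = t := by
  unfold side; rw [mem_filter]

lemma joined_mem {D : Finset (ℤ × ℤ)} {ω : Cfg} (hω : ω ⊆ edgesIn D) {x y : ℤ × ℤ} (hx : x ∈ D)
    (h : Joined ω x y) : y ∈ D := by
  obtain ⟨q, hq⟩ := joined_walk (fun e he => edge_lattice (hω he)) h
  exact support_subset q (fun e he => hω (hq e he)) hx y q.end_mem_support

lemma perc_side {D X : Finset (ℤ × ℤ)} (hX : X ⊆ D) (t : ℤ) :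
    perc half D (JJ X (side D t)) = perc half D (Sd X t) := by
  apply le_antisymm
  · apply perc_half_mono
    rintro ω _ ⟨x, hx, y, hy, hj⟩
    exact ⟨x, hx, y, (mem_side.1 hy).2, hj⟩
  · apply perc_half_mono
    rintro ω hω ⟨x, hx, y, hy, hj⟩
    exact ⟨x, hx, y, mem_side.2 ⟨joined_mem hω (hX hx) hj, hy⟩, hj⟩

lemma side_rf (w N : ℕ) : (side (IPK.hs (2 * w) N) 0).map (rf w).toEmbedding =
    side (IPK.hs (2 * w) N) (2 * w) := by
  ext z
  rw [mem_map_equiv, mem_side, mem_side, IPK.mem_hs, IPK.mem_hs, rf_symm, rf_apply]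
  push_cast
  constructor <;> intro h <;> refine ⟨⟨?_, ?_, ?_, ?_⟩, ?_⟩ <;> omega

lemma mem_rf {w : ℤ} {X : Finset (ℤ × ℤ)} {z : ℤ × ℤ} : z ∈ X.map (rf w).toEmbedding ↔ rf w z ∈ X := by
  rw [mem_map_equiv, rf_symm]

lemma rf_subset {w N : ℕ} {X : Finset (ℤ × ℤ)} (hX : X ⊆ IPK.hs (2 * w) N) :
    X.map (rf w).toEmbedding ⊆ IPK.hs (2 * w) N := by
  rw [← hs_rf w N]; exact map_subset_map.2 hX

/-! ### positivity -/

lemma reach_side {w N : ℕ} (hN : 2 ≤ N) (n : ℕ) : ∀ z ∈ IPK.hs (2 * w) N, z.1 + z.2 + n = 2 * w →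
    ∃ z' : ℤ × ℤ, z'.1 + z'.2 = 2 * w ∧ Joined (edgesIn (IPK.hs (2 * w) N)) z z' := by
  induction n with
  | zero =>
    intro z _ h
    exact ⟨z, by push_cast at h; omega, joined_refl _ _⟩
  | succ n ih =>
    rintro ⟨x, y⟩ hz h
    have hz' := IPK.mem_hs.1 hz
    push_cast at hz' h
    by_cases hv : x - y < N
    · have hm : ((x + 1, y) : ℤ × ℤ) ∈ IPK.hs (2 * w) N := by
        rw [IPK.mem_hs]; push_cast; omega
      obtain ⟨z', h1, h2⟩ := ih (x + 1, y) hm (by simp only; omega)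
      refine ⟨z', h1, joined_trans (joined_edge ?_) h2⟩
      rw [mem_edgesIn]
      refine ⟨hz, hm, Or.inr ⟨rfl, ?_⟩⟩
      show |x - (x + 1)| = 1
      rw [show x - (x + 1) = -1 by ring]; norm_num
    · have hm : ((x, y + 1) : ℤ × ℤ) ∈ IPK.hs (2 * w) N := by
        rw [IPK.mem_hs]; push_cast; omega
      obtain ⟨z', h1, h2⟩ := ih (x, y + 1) hm (by simp only; omega)
      refine ⟨z', h1, joined_trans (joined_edge ?_) h2⟩
      rw [mem_edgesIn]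
      refine ⟨hz, hm, Or.inl ⟨rfl, ?_⟩⟩
      show |y - (y + 1)| = 1
      rw [show y - (y + 1) = -1 by ring]; norm_num

lemma perc_Sd_pos {w N : ℕ} (hN : 2 ≤ N) {X : Finset (ℤ × ℤ)} (hX : X ⊆ IPK.hs (2 * w) N)
    (hne : X.Nonempty) : 0 < perc half (IPK.hs (2 * w) N) (Sd X (2 * w)) := by
  obtain ⟨x, hx⟩ := hne
  have h1 := IPK.mem_hs.1 (hX hx)
  push_cast at h1
  obtain ⟨n, hn⟩ : ∃ n : ℕ, x.1 + x.2 + n = 2 * w := ⟨(2 * w - (x.1 + x.2)).toNat, by omega⟩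
  obtain ⟨z', h2, h3⟩ := reach_side hN n x (hX hx) hn
  refine lt_of_lt_of_le (by positivity) (perc_half_pos _ _ ⟨x, hx, z', h2, h3⟩)

/-! ### truncation of the width -/

lemma corner_mem {L N : ℕ} (hL : 1 ≤ L) (hN : 1 ≤ N) : ((1, 0) : ℤ × ℤ) ∈ IPK.hs L N := by
  rw [IPK.mem_hs]
  refine ⟨?_, ?_, ?_, ?_⟩
  · show (0 : ℤ) ≤ 1 + 0; norm_num
  · show (1 : ℤ) + 0 ≤ L; omega
  · show (1 : ℤ) ≤ 1 - 0; norm_num
  · show (1 : ℤ) - 0 ≤ N; omega

lemma corner_mem' {w N : ℕ} (hw : 1 ≤ w) (hN : 1 ≤ N) :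
    (((w : ℤ), (w : ℤ) - 1) : ℤ × ℤ) ∈ IPK.hs (2 * w) N := by
  rw [IPK.mem_hs]
  refine ⟨?_, ?_, ?_, ?_⟩
  · show (0 : ℤ) ≤ w + (w - 1); omega
  · show (w : ℤ) + (w - 1) ≤ ((2 * w : ℕ) : ℤ); push_cast; omega
  · show (1 : ℤ) ≤ w - (w - 1); omega
  · show (w : ℤ) - (w - 1) ≤ N; omega

/-- the corner is joined to the line `x + y = t` -/
def Ct (t : ℤ) (ω : Cfg) : Prop := ∃ z : ℤ × ℤ, z.1 + z.2 = t ∧ Joined ω (1, 0) z

lemma trunc {L N : ℕ} (hL : 1 ≤ L) (hN : 1 ≤ N) :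
    perc half (IPK.hs (L + 1) N) (Ct (L + 1)) ≤ perc half (IPK.hs L N) (Ct L) := by
  have hsub : IPK.hs L N ⊆ IPK.hs (L + 1) N := by
    intro z hz
    rw [IPK.mem_hs] at hz ⊢
    push_cast
    omega
  rw [← perc_restrict hsub]
  apply perc_half_mono
  rintro ω hω ⟨z, hz, hj⟩
  obtain ⟨q, hq⟩ := joined_walk (fun e he => edge_lattice (hω he)) hj
  have ha : ((1, 0) : ℤ × ℤ) ∈ IPK.hs (L + 1) N := corner_mem (by omega) hN
  have hqD := support_subset q (fun e he => hω (hq e he)) ha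
  obtain ⟨c, hc, hc1, hc2, q₁, g1, g2, g3, g4⟩ := first_visit'
    (fun w : ℤ × ℤ => (L : ℤ) ≤ w.1 + w.2) q (by omega)
  have hcL : c.1 + c.2 = L := by
    by_cases h : (L : ℤ) ≤ ((1, 0) : ℤ × ℤ).1 + ((1, 0) : ℤ × ℤ).2
    · rw [hc1 h] at hc ⊢
      simp only at h hc ⊢
      omega
    · obtain ⟨w, hw1, hw2⟩ := hc2 h
      rcases adj_cases hw1 with h | h <;> omega
  have hmem : ∀ w ∈ q₁.support, w ∈ IPK.hs L N := by
    intro w hw
    have h1 := IPK.mem_hs.1 (hqD w (g2 w hw))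
    push_cast at h1
    rw [IPK.mem_hs]
    by_cases hwc : w = c
    · rw [hwc] at h1 ⊢; omega
    · have := g3 w hw hwc; omega
  refine ⟨c, hcL, walk_joined q₁ fun e he => ?_⟩
  have he1 := hq e (g1 e he)
  rw [mem_inter]
  refine ⟨he1, ?_⟩
  induction e using Sym2.ind with
  | _ u v =>
    rw [mem_edgesIn]
    exact ⟨hmem u (Walk.fst_mem_support_of_mem_edges _ he),
      hmem v (Walk.snd_mem_support_of_mem_edges _ he), (mem_edgesIn.1 (hω he1)).2.2⟩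

lemma Ct_Sd {t : ℤ} {ω : Cfg} : Sd {((1, 0) : ℤ × ℤ)} t ω ↔ Ct t ω := by
  constructor
  · rintro ⟨x, hx, z, hz, hj⟩
    rw [mem_singleton] at hx
    subst hx
    exact ⟨z, hz, hj⟩
  · rintro ⟨z, hz, hj⟩
    exact ⟨_, mem_singleton_self _, z, hz, hj⟩

lemma perc_Ct (D : Finset (ℤ × ℤ)) (t : ℤ) :
    perc half D (Sd {((1, 0) : ℤ × ℤ)} t) = perc half D (Ct t) :=
  le_antisymm (perc_half_mono fun _ _ h => Ct_Sd.1 h) (perc_half_mono fun _ _ h => Ct_Sd.2 h)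

lemma perc_corners (D : Finset (ℤ × ℤ)) (u v : ℤ × ℤ) :
    perc half D (JJ {u} {v}) = perc half D (fun ω => Joined ω u v) := by
  apply le_antisymm
  · apply perc_half_mono
    rintro ω _ ⟨x, hx, y, hy, hj⟩
    rw [mem_singleton] at hx hy
    subst hx; subst hy; exact hj
  · exact perc_half_mono fun ω _ h => ⟨u, mem_singleton_self _, v, mem_singleton_self _, h⟩

lemma cs_def (n : ℕ) : Tendsto (fun N : ℕ => perc half (IPK.hs (2 * n + 1) N) (Ct (2 * n + 1)))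
    atTop (𝓝 (CardyK.dd n)) := by
  have := IPK.cs_tendsto n
  rw [IPK.cs_eq] at this
  exact this

lemma Ct_mono_N (t : ℤ) (L : ℕ) : Monotone (fun N : ℕ => perc half (IPK.hs L N) (Ct t)) :=
  fun _ _ h => IPK.perc_up (IPK.hs_mono L h)
    (fun ω ω' h => by rintro ⟨z, h1, h2⟩; exact ⟨z, h1, joined_mono h h2⟩)

/-- upper bound for the corner-side probability -/
lemma side_le (m N : ℕ) (hN : 1 ≤ N) :
    perc half (IPK.hs (2 * (m + 1)) N) (Ct (2 * ((m + 1 : ℕ) : ℤ))) ≤ CardyK.dd m := by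
  have h1 := trunc (L := 2 * m + 1) (N := N) (by omega) hN
  have h2 := (Ct_mono_N (2 * m + 1) (2 * m + 1)).ge_of_tendsto (cs_def m) N
  have e1 : 2 * m + 1 + 1 = 2 * (m + 1) := by ring
  have e2 : (((2 * m + 1 : ℕ) : ℤ) + 1) = 2 * ((m + 1 : ℕ) : ℤ) := by push_cast; ring
  have e3 : ((2 * m + 1 : ℕ) : ℤ) = 2 * (m : ℤ) + 1 := by push_cast; ring
  rw [e2, e1, e3] at h1
  exact h1.trans h2

/-- the corner-side probability in the wide strip is a lower bound -/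
lemma le_side (w N : ℕ) (hw : 1 ≤ w) (hN : 1 ≤ N) :
    perc half (IPK.hs (2 * w + 1) N) (Ct (2 * w + 1)) ≤ perc half (IPK.hs (2 * w) N) (Ct (2 * w)) := by
  have h1 := trunc (L := 2 * w) (N := N) (by omega) hN
  push_cast at h1
  exact h1

/-- the corner-corner probability -/
lemma corners_le (m N : ℕ) : perc half (IPK.hs (2 * (m + 1)) N)
    (fun ω => Joined ω (1, 0) (((m + 1 : ℕ) : ℤ), ((m + 1 : ℕ) : ℤ) - 1)) ≤ CardyK.xx m := by
  have h1 := IPK.cc_tendsto (m + 1)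
  rw [IPK.cc_eq] at h1
  refine Monotone.ge_of_tendsto ?_ h1 N
  exact fun _ _ h => IPK.perc_up (IPK.hs_mono _ h) (fun ω ω' h h2 => joined_mono h h2)

/-- **corner quantities in long rectangles** -/
theorem corner_bounds {δ : ℝ} (hδ : 0 < δ) : ∃ H : ℕ, 2 ≤ H ∧ ∀ m N : ℕ, H * (m + 1) ≤ N →
    (1 - δ) * CardyK.xx m ≤ perc half (IPK.hs (2 * (m + 1)) N)
      (JJ {((1, 0) : ℤ × ℤ)} {(((m + 1 : ℕ) : ℤ), ((m + 1 : ℕ) : ℤ) - 1)}) ∧
    perc half (IPK.hs (2 * (m + 1)) N)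
      (JJ {((1, 0) : ℤ × ℤ)} {(((m + 1 : ℕ) : ℤ), ((m + 1 : ℕ) : ℤ) - 1)}) ≤ CardyK.xx m ∧
    (1 - δ) * CardyK.dd (m + 1) ≤ perc half (IPK.hs (2 * (m + 1)) N)
      (Sd {((1, 0) : ℤ × ℤ)} (2 * ((m + 1 : ℕ) : ℤ))) ∧
    perc half (IPK.hs (2 * (m + 1)) N)
      (Sd {((1, 0) : ℤ × ℤ)} (2 * ((m + 1 : ℕ) : ℤ))) ≤ CardyK.dd m := by
  obtain ⟨c, hc, hc1, hcomp⟩ := compareS
  obtain ⟨j, hj⟩ : ∃ j : ℕ, (1 - c) ^ j ≤ δ := by
    obtain ⟨n, hn⟩ := exists_pow_lt_of_lt_one hδ (show 1 - c < 1 by linarith)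
    exact ⟨n, hn.le⟩
  refine ⟨8 + 6 * j, by omega, ?_⟩
  intro m N hN
  set w : ℕ := m + 1 with hw
  have hw1 : 1 ≤ w := by omega
  have hjw : j ≤ j * w := Nat.le_mul_of_pos_right j (by omega)
  have hNbig : 2 * (4 * w + j * (2 * w + 1)) ≤ N := by nlinarith
  have hN1 : 1 ≤ N := by omega
  have hN2 : 4 * w ≤ N := by
    have : 0 ≤ j * (2 * w + 1) := Nat.zero_le _
    omega
  -- comparison with longer rectangles
  have comp : ∀ N' : ℕ, N ≤ N' →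
      (∀ A B : Finset (ℤ × ℤ), A ⊆ IPK.hs (2 * w) N → B ⊆ IPK.hs (2 * w) N →
        (∀ x ∈ A, x.1 ≤ 2 * (2 * w : ℤ)) → (∀ x ∈ B, x.1 ≤ 2 * (2 * w : ℤ)) →
        (1 - (1 - c) ^ j) * perc half (IPK.hs (2 * w) N') (JJ A B) ≤
          perc half (IPK.hs (2 * w) N) (JJ A B)) ∧
      (∀ (A : Finset (ℤ × ℤ)) (t : ℤ), A ⊆ IPK.hs (2 * w) N → (∀ x ∈ A, x.1 ≤ 2 * (2 * w : ℤ)) →
        (t = 0 ∨ t = (2 * w : ℤ)) →
        (1 - (1 - c) ^ j) * perc half (IPK.hs (2 * w) N') (Sd A t) ≤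
          perc half (IPK.hs (2 * w) N) (Sd A t)) := by
    intro N' hN'
    refine hcomp (2 * w : ℤ) ((4 * w + j * (2 * w + 1) : ℕ) : ℤ) j (IPK.hs (2 * w) N)
      (IPK.hs (2 * w) N') (by omega) ?_ (IPK.hs_mono _ hN') ?_ ?_ ?_
    · push_cast
      have : 2 * (2 * (w : ℤ)) + j * (2 * w + 1) = 4 * w + j * (2 * w + 1) := by ring
      rw [this]
    · intro z hz hzK
      rw [IPK.mem_hs] at hz ⊢
      omega
    · intro z hz
      rw [IPK.mem_hs] at hz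
      push_cast at hz
      omega
    · intro z h1 h2 h3 h4
      rw [IPK.mem_hs]
      push_cast
      push_cast at h4
      refine ⟨h1, h2, h3, ?_⟩
      have h5 : ((2 * (4 * w + j * (2 * w + 1)) : ℕ) : ℤ) ≤ N := by exact_mod_cast hNbig
      push_cast at h5
      omega
  have hfac : 1 - δ ≤ 1 - (1 - c) ^ j := by linarith
  have ha : ({((1, 0) : ℤ × ℤ)} : Finset (ℤ × ℤ)) ⊆ IPK.hs (2 * w) N :=
    singleton_subset_iff.2 (corner_mem (by omega) hN1)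
  have hb : ({((w : ℤ), (w : ℤ) - 1)} : Finset (ℤ × ℤ)) ⊆ IPK.hs (2 * w) N :=
    singleton_subset_iff.2 (corner_mem' hw1 hN1)
  refine ⟨?_, ?_, ?_, ?_⟩
  · have h1 := IPK.cc_tendsto (m + 1)
    rw [IPK.cc_eq, ← hw] at h1
    have h2 : ∀ᶠ N' : ℕ in atTop, (1 - (1 - c) ^ j) * perc half (IPK.hs (2 * w) N')
        (fun ω => Joined ω (1, 0) ((w : ℤ), (w : ℤ) - 1)) ≤ perc half (IPK.hs (2 * w) N)
        (JJ {((1, 0) : ℤ × ℤ)} {((w : ℤ), (w : ℤ) - 1)}) := by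
      filter_upwards [eventually_ge_atTop N] with N' hN'
      rw [← perc_corners (IPK.hs (2 * w) N')]
      refine (comp N' hN').1 _ _ ha hb ?_ ?_
      · intro x hx; rw [mem_singleton] at hx; subst hx; simp only; omega
      · intro x hx; rw [mem_singleton] at hx; subst hx; simp only; omega
    have h3 := le_of_tendsto (h1.const_mul (1 - (1 - c) ^ j)) h2
    exact (mul_le_mul_of_nonneg_right hfac (CardyK.xx_pos m).le).trans h3
  · rw [perc_corners]; exact corners_le m N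
  · have h1 := cs_def (m + 1)
    rw [← hw] at h1
    have h2 : ∀ᶠ N' : ℕ in atTop, (1 - (1 - c) ^ j) * perc half (IPK.hs (2 * w + 1) N')
        (Ct (2 * w + 1)) ≤ perc half (IPK.hs (2 * w) N) (Sd {((1, 0) : ℤ × ℤ)} (2 * w)) := by
      filter_upwards [eventually_ge_atTop N] with N' hN'
      have h4 := le_side w N' hw1 (by omega)
      have h5 := (comp N' hN').2 _ (2 * w) ha (by
        intro x hx; rw [mem_singleton] at hx; subst hx; simp only; omega) (Or.inr rfl)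
      rw [perc_Ct] at h5
      have h6 : 0 ≤ 1 - (1 - c) ^ j := by
        have : (1 - c) ^ j ≤ 1 := pow_le_one₀ (by linarith) (by linarith)
        linarith
      exact (mul_le_mul_of_nonneg_left h4 h6).trans h5
    have h3 := le_of_tendsto (h1.const_mul (1 - (1 - c) ^ j)) h2
    exact (mul_le_mul_of_nonneg_right hfac (CardyK.dd_pos (m + 1)).le).trans h3
  · rw [perc_Ct]; exact side_le m N hN1

/-- real arithmetic -/
lemma arith {δ C η pXY paY pXR pYL pab paR x d d1 : ℝ} (hδ0 : 0 < δ) (hδ1 : δ < 1)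
    (hlo : C - η ≤ (1 - δ) * (C - δ) / (1 + δ) ^ 2)
    (hhi : (1 + δ) ^ 2 * ((C + δ) / (1 - δ) ^ 2) ≤ C + η)
    (hx : 0 < x) (hd : 0 < d) (hd1 : 0 < d1) (m1 : C - δ ≤ x / d ^ 2) (m2 : x / d1 ^ 2 ≤ C + δ)
    (c1 : (1 - δ) * x ≤ pab) (c2 : pab ≤ x) (c3 : (1 - δ) * d1 ≤ paR) (c4 : paR ≤ d)
    (r1 : pXY * paR ≤ (1 + δ) * (paY * pXR)) (r2 : paY * pXR ≤ (1 + δ) * (pXY * paR))
    (r3 : paY * paR ≤ (1 + δ) * (pab * pYL)) (r4 : pab * pYL ≤ (1 + δ) * (paY * paR))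
    (hXR : 0 < pXR) (hYL : 0 < pYL) (n3 : 0 ≤ pab) : |pXY / (pXR * pYL) - C| ≤ η := by
  have h1δ : 0 < 1 - δ := by linarith
  have paRpos : 0 < paR := lt_of_lt_of_le (mul_pos h1δ hd1) c3
  -- combine
  have hi : pXY * paR ^ 2 ≤ (1 + δ) ^ 2 * (pab * (pXR * pYL)) := by
    calc pXY * paR ^ 2 = (pXY * paR) * paR := by ring
      _ ≤ ((1 + δ) * (paY * pXR)) * paR := mul_le_mul_of_nonneg_right r1 paRpos.le
      _ = (1 + δ) * pXR * (paY * paR) := by ring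
      _ ≤ (1 + δ) * pXR * ((1 + δ) * (pab * pYL)) :=
          mul_le_mul_of_nonneg_left r3 (by positivity)
      _ = _ := by ring
  have lo : pab * (pXR * pYL) ≤ (1 + δ) ^ 2 * (pXY * paR ^ 2) := by
    calc pab * (pXR * pYL) = pXR * (pab * pYL) := by ring
      _ ≤ pXR * ((1 + δ) * (paY * paR)) := mul_le_mul_of_nonneg_left r4 hXR.le
      _ = (1 + δ) * paR * (paY * pXR) := by ring
      _ ≤ (1 + δ) * paR * ((1 + δ) * (pXY * paR)) := mul_le_mul_of_nonneg_left r2 (by positivity)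
      _ = _ := by ring
  have hden : 0 < pXR * pYL := mul_pos hXR hYL
  rw [abs_le]
  constructor
  · -- lower bound
    have h1 : (1 - δ) * (C - δ) / (1 + δ) ^ 2 ≤ pXY / (pXR * pYL) := by
      rw [div_le_div_iff₀ (by positivity) hden]
      have h2 : (1 - δ) * (C - δ) ≤ pab / paR ^ 2 := by
        rw [le_div_iff₀ (by positivity)]
        have h3 : (C - δ) * d ^ 2 ≤ x := by
          rwa [le_div_iff₀ (by positivity)] at m1
        rcases le_or_gt 0 (C - δ) with h4 | h4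
        · calc (1 - δ) * (C - δ) * paR ^ 2 ≤ (1 - δ) * (C - δ) * d ^ 2 :=
                mul_le_mul_of_nonneg_left (pow_le_pow_left₀ paRpos.le c4 2)
                  (mul_nonneg h1δ.le h4)
            _ = (1 - δ) * ((C - δ) * d ^ 2) := by ring
            _ ≤ (1 - δ) * x := mul_le_mul_of_nonneg_left h3 h1δ.le
            _ ≤ pab := c1
        · have : (1 - δ) * (C - δ) * paR ^ 2 ≤ 0 := by
            have h5 : (1 - δ) * (C - δ) ≤ 0 := mul_nonpos_of_nonneg_of_nonpos h1δ.le h4.le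
            exact mul_nonpos_of_nonpos_of_nonneg h5 (by positivity)
          exact this.trans n3
      rw [le_div_iff₀ (by positivity)] at h2
      have h6 : ((1 - δ) * (C - δ) * (pXR * pYL)) * paR ^ 2 ≤ (pXY * (1 + δ) ^ 2) * paR ^ 2 := by
        calc ((1 - δ) * (C - δ) * (pXR * pYL)) * paR ^ 2
            = ((1 - δ) * (C - δ) * paR ^ 2) * (pXR * pYL) := by ring
          _ ≤ pab * (pXR * pYL) := mul_le_mul_of_nonneg_right h2 hden.le
          _ ≤ (1 + δ) ^ 2 * (pXY * paR ^ 2) := lo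
          _ = (pXY * (1 + δ) ^ 2) * paR ^ 2 := by ring
      exact le_of_mul_le_mul_right h6 (by positivity)
    linarith
  · -- upper bound
    have h1 : pXY / (pXR * pYL) ≤ (1 + δ) ^ 2 * ((C + δ) / (1 - δ) ^ 2) := by
      rw [div_le_iff₀ hden]
      have h2 : pab / paR ^ 2 ≤ (C + δ) / (1 - δ) ^ 2 := by
        rw [div_le_div_iff₀ (by positivity) (by positivity)]
        have h3 : x ≤ (C + δ) * d1 ^ 2 := by
          rwa [div_le_iff₀ (by positivity)] at m2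
        have h7 : 0 ≤ C + δ := by
          have h8 : 0 < x / d1 ^ 2 := by positivity
          linarith
        calc pab * (1 - δ) ^ 2 ≤ ((C + δ) * d1 ^ 2) * (1 - δ) ^ 2 :=
              mul_le_mul_of_nonneg_right (c2.trans h3) (by positivity)
          _ = (C + δ) * ((1 - δ) * d1) ^ 2 := by ring
          _ ≤ (C + δ) * paR ^ 2 :=
              mul_le_mul_of_nonneg_left (pow_le_pow_left₀ (by positivity) c3 2) h7
      have h9 : pab ≤ (C + δ) / (1 - δ) ^ 2 * paR ^ 2 := (div_le_iff₀ (by positivity)).1 h2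
      have h6 : pXY * paR ^ 2 ≤ ((1 + δ) ^ 2 * ((C + δ) / (1 - δ) ^ 2) * (pXR * pYL)) * paR ^ 2 := by
        calc pXY * paR ^ 2 ≤ (1 + δ) ^ 2 * (pab * (pXR * pYL)) := hi
          _ ≤ (1 + δ) ^ 2 * (((C + δ) / (1 - δ) ^ 2 * paR ^ 2) * (pXR * pYL)) :=
              mul_le_mul_of_nonneg_left (mul_le_mul_of_nonneg_right h9 hden.le) (by positivity)
          _ = ((1 + δ) ^ 2 * ((C + δ) / (1 - δ) ^ 2) * (pXR * pYL)) * paR ^ 2 := by ring
      exact le_of_mul_le_mul_right h6 (by positivity)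
    linarith

/-- the constant -/
noncomputable def CC : ℝ := Real.Gamma (1 / 3) ^ 2 / (3 * Real.Gamma (2 / 3))

/-- **Macroscopic corner theorem.** -/
theorem macroscopic {η : ℝ} (hη : 0 < η) : ∃ ε : ℝ, 0 < ε ∧ ∃ H w₀ : ℕ, ∀ w N : ℕ, w₀ ≤ w →
    H * w ≤ N → ∀ X Y : Finset (ℤ × ℤ), X ⊆ IPK.hs (2 * w) N → Y ⊆ IPK.hs (2 * w) N →
    X.Nonempty → Y.Nonempty → (∀ x ∈ X, (x.1 : ℝ) ≤ ε * w) → (∀ y ∈ Y, (w : ℝ) - y.2 ≤ ε * w) →
    0 < perc half (IPK.hs (2 * w) N) (Sd X (2 * w)) ∧ 0 < perc half (IPK.hs (2 * w) N) (Sd Y 0) ∧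
    |perc half (IPK.hs (2 * w) N) (JJ X Y) / (perc half (IPK.hs (2 * w) N) (Sd X (2 * w)) *
      perc half (IPK.hs (2 * w) N) (Sd Y 0)) - CC| ≤ η := by
  -- choice of `δ`
  obtain ⟨δ, hδ0, hδ1, hδlo, hδhi⟩ : ∃ δ : ℝ, 0 < δ ∧ δ < 1 ∧
      CC - η ≤ (1 - δ) * (CC - δ) / (1 + δ) ^ 2 ∧ (1 + δ) ^ 2 * ((CC + δ) / (1 - δ) ^ 2) ≤ CC + η := by
    have t1 : Tendsto (fun δ : ℝ => (1 - δ) * (CC - δ) / (1 + δ) ^ 2) (𝓝 0)
        (𝓝 ((1 - 0) * (CC - 0) / (1 + 0) ^ 2)) := by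
      refine Tendsto.div (Tendsto.mul (tendsto_const_nhds.sub tendsto_id)
        (tendsto_const_nhds.sub tendsto_id)) ((tendsto_const_nhds.add tendsto_id).pow 2) (by norm_num)
    have t2 : Tendsto (fun δ : ℝ => (1 + δ) ^ 2 * ((CC + δ) / (1 - δ) ^ 2)) (𝓝 0)
        (𝓝 ((1 + 0) ^ 2 * ((CC + 0) / (1 - 0) ^ 2))) := by
      refine Tendsto.mul ((tendsto_const_nhds.add tendsto_id).pow 2) (Tendsto.div
        (tendsto_const_nhds.add tendsto_id) ((tendsto_const_nhds.sub tendsto_id).pow 2) (by norm_num))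
    have e1 : (1 - 0) * (CC - 0) / (1 + 0) ^ 2 = CC := by ring
    have e2 : (1 + 0) ^ 2 * ((CC + 0) / (1 - 0) ^ 2) = CC := by ring
    rw [e1] at t1
    rw [e2] at t2
    have h1 := t1.eventually (lt_mem_nhds (show CC - η < CC by linarith))
    have h2 := t2.eventually (gt_mem_nhds (show CC < CC + η by linarith))
    have h3 := (h1.and h2)
    rw [Metric.eventually_nhds_iff] at h3
    obtain ⟨ε, hε, h4⟩ := h3
    have hpos : 0 < min (ε / 2) (1 / 2 : ℝ) := lt_min (by linarith) (by norm_num)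
    have h5 := h4 (y := min (ε / 2) (1 / 2)) (by
      rw [Real.dist_eq, sub_zero, abs_of_pos hpos]
      have := min_le_left (ε / 2) (1 / 2 : ℝ); linarith)
    refine ⟨min (ε / 2) (1 / 2), hpos, ?_, h5.1.le, h5.2.le⟩
    have := min_le_right (ε / 2) (1 / 2 : ℝ); linarith
  obtain ⟨ρ, hρ, hratio⟩ := ratio_limit hδ0
  obtain ⟨H, hH, hcor⟩ := corner_bounds hδ0
  obtain ⟨m₀, hm₀⟩ : ∃ m₀ : ℕ, ∀ m, m₀ ≤ m → CC - δ ≤ CardyK.xx m / CardyK.dd m ^ 2 ∧
      CardyK.xx m / CardyK.dd (m + 1) ^ 2 ≤ CC + δ := by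
    have h1 := CardyK.ratio_tendsto.eventually (lt_mem_nhds (show CC - δ < CC by linarith))
    have h2 := CardyK.ratio_tendsto'.eventually (gt_mem_nhds (show CC < CC + δ by linarith))
    obtain ⟨m₀, h⟩ := eventually_atTop.1 (h1.and h2)
    exact ⟨m₀, fun m hm => ⟨(h m hm).1.le, (h m hm).2.le⟩⟩
  refine ⟨1 / (ρ + 1), by positivity, H, max (2 * (ρ + 1)) (m₀ + 1), ?_⟩
  intro w N hw hN X Y hX hY hXne hYne hXε hYε
  have hw1 : 2 * (ρ + 1) ≤ w := (le_max_left _ _).trans hw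
  have hw2 : m₀ + 1 ≤ w := (le_max_right _ _).trans hw
  obtain ⟨m, rfl⟩ : ∃ m, w = m + 1 := ⟨w - 1, by omega⟩
  set w : ℕ := m + 1 with hwdef
  have hNw : 2 * w ≤ N := (Nat.mul_le_mul_right w hH).trans hN
  set D := IPK.hs (2 * w) N with hD
  obtain ⟨c1, c2, c3, c4⟩ := hcor m N hN
  rw [← hwdef] at c1 c2 c3 c4
  rw [← hD] at c1 c2 c3 c4
  -- the scale
  set k : ℤ := ((w / (ρ + 1) : ℕ) : ℤ) with hk
  have hk2 : 2 ≤ k := by
    have : 2 ≤ w / (ρ + 1) := (Nat.le_div_iff_mul_le (by omega)).2 hw1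
    omega
  have hkw : ((ρ : ℤ) + 1) * k ≤ w := by
    have := Nat.mul_div_le w (ρ + 1)
    rw [hk]
    exact_mod_cast this
  have hsmall : ∀ x : ℤ, (x : ℝ) ≤ 1 / (ρ + 1) * w → x ≤ k := by
    intro x hx
    have h1 : (x : ℝ) * (ρ + 1) ≤ w := by
      have h2 : (0 : ℝ) < ρ + 1 := by positivity
      calc (x : ℝ) * (ρ + 1) ≤ (1 / (ρ + 1) * w) * (ρ + 1) := mul_le_mul_of_nonneg_right hx h2.le
        _ = w := by field_simp
    have h3 : x * ((ρ : ℤ) + 1) ≤ w := by exact_mod_cast h1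
    rw [hk]
    push_cast
    exact (Int.le_ediv_iff_mul_le (by omega)).2 h3
  have hXk : ∀ x ∈ X, x.1 ≤ k := fun x hx => hsmall _ (hXε x hx)
  have hYk : ∀ y ∈ Y, (w : ℤ) - y.2 ≤ k := fun y hy => hsmall _ (by
    have := hYε y hy
    push_cast
    exact this)
  have hρk : (ρ : ℤ) * k ≤ w - k := by linarith
  -- geometry
  have hDw : ∀ z ∈ D, z ∈ wedge := by
    intro z hz
    rw [hD, IPK.mem_hs] at hz
    exact ⟨hz.1, hz.2.2.1⟩
  have hwD : ∀ z ∈ wedge, z.1 ≤ (ρ : ℤ) * k → z ∈ D := by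
    rintro z ⟨h1, h2⟩ h3
    rw [hD, IPK.mem_hs]
    push_cast
    refine ⟨h1, by omega, h2, by omega⟩
  have haD : ({((1, 0) : ℤ × ℤ)} : Finset (ℤ × ℤ)) ⊆ D :=
    singleton_subset_iff.2 (corner_mem (by omega) (by omega))
  have hbD : ({((w : ℤ), (w : ℤ) - 1)} : Finset (ℤ × ℤ)) ⊆ D :=
    singleton_subset_iff.2 (corner_mem' (by omega) (by omega))
  have hak : ∀ x ∈ ({((1, 0) : ℤ × ℤ)} : Finset (ℤ × ℤ)), x.1 ≤ k := by
    intro x hx; rw [mem_singleton] at hx; subst hx; simp only; omega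
  have hsD : side D (2 * w) ⊆ D := fun z hz => (mem_side.1 hz).1
  have hsf : ∀ x ∈ side D (2 * w), (ρ : ℤ) * k ≤ x.1 := by
    intro x hx
    have h1 := mem_side.1 hx
    rw [hD, IPK.mem_hs] at h1
    omega
  have hYf : ∀ y ∈ Y, (ρ : ℤ) * k ≤ y.1 := by
    intro y hy
    have h1 := hY hy
    have h2 := hYk y hy
    rw [IPK.mem_hs] at h1
    omega
  have hbf : ∀ x ∈ ({((w : ℤ), (w : ℤ) - 1)} : Finset (ℤ × ℤ)), (ρ : ℤ) * k ≤ x.1 := by
    intro x hx; rw [mem_singleton] at hx; subst hx; simp only; omega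
  -- the reflected set
  set Y' := Y.map (rf w).toEmbedding with hY'
  have hY'D : Y' ⊆ D := rf_subset hY
  have hY'k : ∀ y ∈ Y', y.1 ≤ k := by
    intro y hy
    rw [hY', mem_rf] at hy
    have := hYk _ hy
    simp only [rf_apply] at this
    omega
  -- reflections of the corner
  have ea : ({((1, 0) : ℤ × ℤ)} : Finset (ℤ × ℤ)).map (rf w).toEmbedding = {((w : ℤ), (w : ℤ) - 1)} := by
    rw [map_singleton]; simp
  have eb : ({((w : ℤ), (w : ℤ) - 1)} : Finset (ℤ × ℤ)).map (rf w).toEmbedding = {((1, 0) : ℤ × ℤ)} := by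
    rw [map_singleton]; simp
  -- the four inequalities
  have r1 := hratio k D hk2 hDw hwD X {((1, 0) : ℤ × ℤ)} Y (side D (2 * w)) hX haD hY hsD hXk hak hYf hsf
  have r2 := hratio k D hk2 hDw hwD {((1, 0) : ℤ × ℤ)} X Y (side D (2 * w)) haD hX hY hsD hak hXk hYf hsf
  have r3 := hratio k D hk2 hDw hwD Y' {((1, 0) : ℤ × ℤ)} {((w : ℤ), (w : ℤ) - 1)} (side D (2 * w))
    hY'D haD hbD hsD hY'k hak hbf hsf
  have r4 := hratio k D hk2 hDw hwD {((1, 0) : ℤ × ℤ)} Y' {((w : ℤ), (w : ℤ) - 1)} (side D (2 * w))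
    haD hY'D hbD hsD hak hY'k hbf hsf
  have e1 : perc half D (JJ Y' {((w : ℤ), (w : ℤ) - 1)}) = perc half D (JJ {((1, 0) : ℤ × ℤ)} Y) := by
    rw [← ea, hY', hD, perc_JJ_rf, perc_JJ_symm]
  have e2 : perc half D (JJ Y' (side D (2 * w))) = perc half D (Sd Y 0) := by
    rw [← perc_side hY 0, hY', hD, ← side_rf, perc_JJ_rf]
  rw [e1, e2, perc_side haD] at r3 r4
  rw [perc_side haD, perc_side hX] at r1 r2
  have hYL : 0 < perc half D (Sd Y 0) := by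
    rw [← e2, perc_side hY'D]
    exact perc_Sd_pos (by omega) hY'D (by rw [hY', map_nonempty]; exact hYne)
  have hXR : 0 < perc half D (Sd X (2 * w)) := perc_Sd_pos (by omega) hX hXne
  refine ⟨hXR, hYL, ?_⟩
  refine arith hδ0 hδ1 hδlo hδhi (CardyK.xx_pos m) (CardyK.dd_pos m) (CardyK.dd_pos (m + 1))
    (hm₀ m (by omega)).1 (hm₀ m (by omega)).2 c1 c2 c3 c4 r1 r2 r3 r4 hXR hYL
    (perc_half_nonneg _ _)

end RatioLimit
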