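import Pool.Agent.Helper99.Ratio.Chain

/-!
RSW input: crossings of slabs; the ratio limit theorem in domains that agree with the wedge near
its corner.
-/

set_option autoImplicit false

namespace RatioLimit
open Finset SimpleGraph H47Perc
open Pool.Agent.Helper69.RSW (P Dep Up P_mono P_congr P_restrict P_indep harris P_nonneg P_le_one
  P_compl)

variable {D : Finset (ℤ × ℤ)}

/-- comparison of probabilities on different edge sets -/
lemma P_transfer {B F : Cfg} {A A' : Cfg → Prop} (hA' : Up A')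
    (h : ∀ ω ⊆ B, A ω → A' (ω ∩ F)) : P B A ≤ P F A' := by
  calc P B A ≤ P B (fun ω => A' (ω ∩ (B ∩ F))) := by
        apply P_mono
        intro ω hω hA
        have : ω ∩ (B ∩ F) = ω ∩ F := by
          rw [← inter_assoc, inter_eq_left.2 hω]
        rw [this]; exact h ω hω hA
    _ = P (B ∩ F) A' := H46.P_inter inter_subset_left A'
    _ = P F (fun ω => A' (ω ∩ (B ∩ F))) := (H46.P_inter inter_subset_right A').symm
    _ ≤ P F A' := P_mono fun ω _ h => hA' _ _ inter_subset_left h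

lemma Gt_up : Up Gt := fun _ _ h hs => hs.mono h

lemma Hc_up (k k' : ℤ) : Up (Hc D k k') := by
  rintro S T hST ⟨z, z', h1, h2, h3, h4⟩
  exact ⟨z, z', h1, h2, h3, joined_mono hST h4⟩

lemma adj_cases {u v : ℤ × ℤ} (h : lattice.Adj u v) :
    (u.1 = v.1 ∧ (u.2 = v.2 + 1 ∨ v.2 = u.2 + 1)) ∨ (u.2 = v.2 ∧ (u.1 = v.1 + 1 ∨ v.1 = u.1 + 1)) := by
  rcases h with ⟨h1, h2⟩ | ⟨h1, h2⟩
  · left; refine ⟨h1, ?_⟩; rw [abs_eq (by norm_num)] at h2; omega
  · right; refine ⟨h1, ?_⟩; rw [abs_eq (by norm_num)] at h2; omega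

/-- a vertical crossing of a tall box contains a crossing of the slab of the wedge -/
theorem Gt_of_BT {r : ℤ} (hr : 2 ≤ r) {K : ℤ} (hK : 2 * r ≤ K)
    (hDK : ∀ z ∈ wedge, z.1 ≤ K → z ∈ D) {h1 h2 : ℤ} (hh1 : h1 ≤ -(2 * r)) (hh2 : 2 * r ≤ h2)
    {ω : Cfg} (hω : ω ⊆ edgesIn (box r (2 * r - 1) h1 h2)) (hB : BT r (2 * r - 1) h1 h2 ω) :
    Gt (ω ∩ Xe D r (2 * r)) := by
  obtain ⟨x, x', hx1, hx2, hx3, hx4, hj⟩ := hB
  obtain ⟨q, hq⟩ := joined_walk (fun e he => edge_lattice (hω he)) hj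
  have hstart : ((x, h1) : ℤ × ℤ) ∈ box r (2 * r - 1) h1 h2 := by
    rw [mem_box]; simp only; omega
  have hbox := support_subset q (fun e he => hω (hq e he)) hstart
  -- first visit of the upper side
  obtain ⟨v, hv, hv1, hv2, q₁, g1, g2, g3, g4⟩ := first_visit'
    (fun w : ℤ × ℤ => w.1 - w.2 ≤ 1) q (by simp only; omega)
  have hnS : ¬ ((x, h1) : ℤ × ℤ).1 - ((x, h1) : ℤ × ℤ).2 ≤ 1 := by simp only; omega
  obtain ⟨w, hw1, hw2⟩ := hv2 hnS
  have hv3 : v.1 - v.2 = 1 := by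
    rcases adj_cases hw1 with h | h <;> omega
  have hvbox := hbox v (g2 v q₁.end_mem_support)
  rw [mem_box] at hvbox
  -- first visit of the lower side, backwards
  obtain ⟨u, hu, hu1, hu2, q₂, f1, f2, f3, f4⟩ := first_visit'
    (fun w : ℤ × ℤ => w.1 + w.2 ≤ 0) q₁.reverse (by simp only; omega)
  have hnS' : ¬ v.1 + v.2 ≤ 0 := by omega
  obtain ⟨w', hw1', hw2'⟩ := hu2 hnS'
  have hu3 : u.1 + u.2 = 0 := by
    rcases adj_cases hw1' with h | h <;> omega
  have hq2s : ∀ z ∈ q₂.support, z ∈ q₁.support := by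
    intro z hz
    have := f2 z hz
    rwa [Walk.support_reverse, List.mem_reverse] at this
  have hmem : ∀ z ∈ q₂.support, z ∈ D ∧ r ≤ z.1 ∧ z.1 < 2 * r := by
    intro z hz
    have h1' := hbox z (g2 z (hq2s z hz))
    rw [mem_box] at h1'
    refine ⟨hDK z ⟨?_, ?_⟩ (by omega), by omega, by omega⟩
    · by_cases hzu : z = u
      · rw [hzu]; omega
      · have := f3 z hz hzu; omega
    · by_cases hzv : z = v
      · rw [hzv]; omega
      · have := g3 z (hq2s z hz) hzv; omega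
  have hjq : Joined (ω ∩ Xe D r (2 * r)) v u := by
    apply walk_joined q₂
    intro e he
    have he1 : e ∈ q₁.edges := by
      have := f1 e he
      rwa [Walk.edges_reverse, List.mem_reverse] at this
    have he2 := hq e (g1 e he1)
    rw [mem_inter]
    refine ⟨he2, ?_⟩
    induction e using Sym2.ind with
    | _ z z' =>
      have m1 := hmem z (Walk.fst_mem_support_of_mem_edges _ he)
      have m2 := hmem z' (Walk.snd_mem_support_of_mem_edges _ he)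
      have hadj := (mem_edgesIn.1 (hω he2)).2.2
      rw [mem_Xe, mem_edgesIn, mn_mk]
      exact ⟨⟨m1.1, m2.1, hadj⟩, le_min m1.2.1 m2.2.1, lt_of_le_of_lt (min_le_left _ _) m1.2.2⟩
  exact ⟨v, u, v, hu3, hv3, hjq, joined_refl _ _⟩

/-- RSW for slabs -/
theorem slab_rsw : ∃ c : ℝ, 0 < c ∧ c ≤ 1 ∧ ∀ (r K : ℤ) (D : Finset (ℤ × ℤ)), 2 ≤ r → 4 * r ≤ K →
    (∀ z ∈ wedge, z.1 ≤ K → z ∈ D) →
    c ≤ P (Xe D r (2 * r)) Gt ∧ c ≤ P (Xe D r (4 * r)) (Hc D r (4 * r)) := by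
  obtain ⟨c1, hc1, h1⟩ := H46.rsw 8
  obtain ⟨c2, hc2, h2⟩ := H46.rsw 6
  refine ⟨min (min c1 c2) 1, lt_min (lt_min hc1 hc2) one_pos, min_le_right _ _, ?_⟩
  intro r K D hr hK hDK
  obtain ⟨n, hn⟩ : ∃ n : ℕ, r - 1 = n := ⟨(r - 1).toNat, by omega⟩
  have hn1 : 1 ≤ n := by omega
  constructor
  · refine (min_le_left _ _).trans ((min_le_left _ _).trans ?_)
    have h3 := (h1 n hn1 r (-(4 * n))).2
    rw [Pool.Agent.Helper69.RSW.perc_half_eq] at h3
    refine h3.trans (P_transfer Gt_up ?_)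
    intro ω hω hB
    have e1 : r + (n : ℤ) = 2 * r - 1 := by omega
    rw [e1] at hω hB
    exact Gt_of_BT hr (by omega) hDK (h1 := -(4 * (n : ℤ))) (h2 := -(4 * (n : ℤ)) + ((8 : ℕ) : ℤ) * n)
      (by omega) (by push_cast; omega) hω hB
  · refine (min_le_left _ _).trans ((min_le_right _ _).trans ?_)
    have h3 := (h2 n hn1 r 0).1
    rw [Pool.Agent.Helper69.RSW.perc_half_eq] at h3
    refine h3.trans (P_transfer (Hc_up _ _) ?_)
    intro ω hω hB
    obtain ⟨y, y', hy1, hy2, hy3, hy4, hj⟩ := hB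
    obtain ⟨q, hq⟩ := joined_walk (fun e he => edge_lattice (hω he)) hj
    have hstart : ((r, y) : ℤ × ℤ) ∈ box r (r + ((6 : ℕ) : ℤ) * n) 0 (0 + n) := by
      rw [mem_box]; simp only; push_cast; omega
    have hbox := support_subset q (fun e he => hω (hq e he)) hstart
    obtain ⟨v, hv, hv1, hv2, q₁, g1, g2, g3, g4⟩ := first_visit'
      (fun w : ℤ × ℤ => 4 * r ≤ w.1) q (by simp only; push_cast; omega)
    have hnS : ¬ 4 * r ≤ ((r, y) : ℤ × ℤ).1 := by simp only; omega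
    obtain ⟨w, hw1, hw2⟩ := hv2 hnS
    have hv3 : v.1 = 4 * r := by
      rcases adj_cases hw1 with h | h <;> omega
    have hmem : ∀ z ∈ q₁.support, z ∈ D ∧ r ≤ z.1 := by
      intro z hz
      have h1' := hbox z (g2 z hz)
      rw [mem_box] at h1'
      refine ⟨hDK z ⟨by omega, by omega⟩ ?_, h1'.1⟩
      by_cases hzv : z = v
      · rw [hzv]; omega
      · have := g3 z hz hzv; omega
    refine ⟨(r, y), v, (hmem _ q₁.start_mem_support).1, le_rfl, hv, ?_⟩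
    apply walk_joined q₁
    intro e he
    have he2 := hq e (g1 e he)
    rw [mem_inter]
    refine ⟨he2, ?_⟩
    obtain ⟨z0, hz0, hz1⟩ := g4 e he
    have hlt := mn_lt_of_mem hz0 (not_le.1 hz1)
    induction e using Sym2.ind with
    | _ z z' =>
      have m1 := hmem z (Walk.fst_mem_support_of_mem_edges _ he)
      have m2 := hmem z' (Walk.snd_mem_support_of_mem_edges _ he)
      have hadj := (mem_edgesIn.1 (hω he2)).2.2
      rw [mem_Xe, mem_edgesIn]
      exact ⟨⟨m1.1, m2.1, hadj⟩, by rw [mn_mk]; exact le_min m1.2 m2.2, hlt⟩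

/-- thick slabs have crossings with probability close to one -/
theorem thick {c : ℝ}
    (h : ∀ (r K : ℤ) (D : Finset (ℤ × ℤ)), 2 ≤ r → 4 * r ≤ K →
      (∀ z ∈ wedge, z.1 ≤ K → z ∈ D) → c ≤ P (Xe D r (2 * r)) Gt) {K : ℤ}
    (hDK : ∀ z ∈ wedge, z.1 ≤ K → z ∈ D) (j : ℕ) : ∀ r : ℤ, 2 ≤ r → 4 * (2 ^ j * r) ≤ K →
    1 - (1 - c) ^ j ≤ P (Xe D r (2 ^ j * r)) Gt := by
  induction j with
  | zero =>
    intro r _ _
    rw [pow_zero, sub_self]
    exact P_nonneg _ _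
  | succ j ih =>
    intro r hr hK
    have hp : (0 : ℤ) < 2 ^ j := by positivity
    have e1 : (2 : ℤ) ^ (j + 1) * r = 2 * (2 ^ j * r) := by ring
    have hr2 : r ≤ 2 ^ j * r := by nlinarith
    rw [e1] at hK ⊢
    have i1 := ih r hr (by omega)
    have i2 := h (2 ^ j * r) K D (by omega) (by omega) hDK
    set F := Xe D r (2 * (2 ^ j * r)) with hF
    have s1 : Xe D r (2 ^ j * r) ⊆ F := Xe_mono le_rfl (by omega)
    have s2 : Xe D (2 ^ j * r) (2 * (2 ^ j * r)) ⊆ F := Xe_mono hr2 le_rfl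
    have c1 := P_compl (Xe D r (2 ^ j * r)) Gt
    have c2 := P_compl (Xe D (2 ^ j * r) (2 * (2 ^ j * r))) Gt
    have c3 := P_compl F Gt
    have d1 : P F (fun ω => ¬ Gt ω) ≤ P F (fun ω => ¬ Gt (ω ∩ Xe D r (2 ^ j * r)) ∧
        ¬ Gt (ω ∩ Xe D (2 ^ j * r) (2 * (2 ^ j * r)))) := by
      apply P_mono
      intro ω _ hn
      exact ⟨fun h => hn (h.mono inter_subset_left), fun h => hn (h.mono inter_subset_left)⟩
    have dep1 : Dep (Xe D r (2 ^ j * r)) (fun ω => ¬ Gt (ω ∩ Xe D r (2 ^ j * r))) := by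
      intro S
      show ¬ Gt (S ∩ Xe D r (2 ^ j * r)) ↔ ¬ Gt (S ∩ Xe D r (2 ^ j * r) ∩ Xe D r (2 ^ j * r))
      rw [inter_assoc, inter_self]
    have dep2 : Dep (Xe D (2 ^ j * r) (2 * (2 ^ j * r)))
        (fun ω => ¬ Gt (ω ∩ Xe D (2 ^ j * r) (2 * (2 ^ j * r)))) := by
      intro S
      show ¬ Gt (S ∩ Xe D (2 ^ j * r) (2 * (2 ^ j * r))) ↔
        ¬ Gt (S ∩ Xe D (2 ^ j * r) (2 * (2 ^ j * r)) ∩ Xe D (2 ^ j * r) (2 * (2 ^ j * r)))
      rw [inter_assoc, inter_self]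
    rw [P_indep s1 s2 (Xe_disj le_rfl) dep1 dep2] at d1
    have q1 : P F (fun ω => ¬ Gt (ω ∩ Xe D r (2 ^ j * r))) =
        P (Xe D r (2 ^ j * r)) (fun ω => ¬ Gt ω) := H46.P_inter s1 (fun ω => ¬ Gt ω)
    have q2 : P F (fun ω => ¬ Gt (ω ∩ Xe D (2 ^ j * r) (2 * (2 ^ j * r)))) =
        P (Xe D (2 ^ j * r) (2 * (2 ^ j * r))) (fun ω => ¬ Gt ω) := H46.P_inter s2 (fun ω => ¬ Gt ω)
    rw [q1, q2] at d1
    have n1 : 0 ≤ P (Xe D r (2 ^ j * r)) (fun ω => ¬ Gt ω) := P_nonneg _ _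
    have n2 : 0 ≤ P (Xe D (2 ^ j * r) (2 * (2 ^ j * r))) (fun ω => ¬ Gt ω) := P_nonneg _ _
    have e2 : P (Xe D r (2 ^ j * r)) (fun ω => ¬ Gt ω) ≤ (1 - c) ^ j := by linarith
    have e3 : P (Xe D (2 ^ j * r) (2 * (2 ^ j * r))) (fun ω => ¬ Gt ω) ≤ 1 - c := by linarith
    have e4 : P (Xe D r (2 ^ j * r)) (fun ω => ¬ Gt ω) *
        P (Xe D (2 ^ j * r) (2 * (2 ^ j * r))) (fun ω => ¬ Gt ω) ≤ (1 - c) ^ j * (1 - c) :=
      mul_le_mul e2 e3 n2 (n1.trans e2)
    rw [pow_succ]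
    linarith

lemma gd_prob {a b : ℕ → ℤ} {N : ℕ} {d : ℝ} (hd : 0 ≤ d)
    (h : ∀ i < N, d ≤ P (Xe D (a i) (b i)) Gt) : ∀ n, n ≤ N → d ^ n ≤ P (edgesIn D) (gd D a b n) := by
  intro n
  induction n with
  | zero =>
    intro _
    rw [pow_zero]
    exact (Pool.Agent.Helper69.RSW.P_true (edgesIn D)).ge
  | succ n ih =>
    intro hn
    have i1 := ih (by omega)
    have i2 := h n (by omega)
    have e : P (edgesIn D) (fun ω => Gt (ω ∩ Xe D (a n) (b n))) = P (Xe D (a n) (b n)) Gt :=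
      H46.P_inter Xe_edges Gt
    have u : Up (fun ω : Cfg => Gt (ω ∩ Xe D (a n) (b n))) :=
      fun S T hST h => h.mono (inter_subset_inter_right hST)
    have h3 := harris (edgesIn D) (gd_up (D := D) a b n) u
    rw [e] at h3
    calc d ^ (n + 1) = d ^ n * d := pow_succ _ _
      _ ≤ P (edgesIn D) (gd D a b n) * P (Xe D (a n) (b n)) Gt := mul_le_mul i1 i2 hd (P_nonneg _ _)
      _ ≤ _ := h3

/-- **RATIO LIMIT THEOREM** (corner one-arm events). For every `η > 0` there is `ρ` such that in every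
domain `D` that agrees with the wedge up to `x ≤ ρ k`, for near sets `X`, `Y` (in `x ≤ k`) and far
sets `F`, `F'` (in `x ≥ ρ k`):
`P(X ↔ F) P(Y ↔ F') ≤ (1 + η) P(Y ↔ F) P(X ↔ F')`. -/
theorem ratio_limit {η : ℝ} (hη : 0 < η) : ∃ ρ : ℕ, 1 ≤ ρ ∧ ∀ (k : ℤ) (D : Finset (ℤ × ℤ)), 2 ≤ k →
    (∀ z ∈ D, z ∈ wedge) → (∀ z ∈ wedge, z.1 ≤ ρ * k → z ∈ D) →
    ∀ X Y F F' : Finset (ℤ × ℤ), X ⊆ D → Y ⊆ D → F ⊆ D → F' ⊆ D →
    (∀ x ∈ X, x.1 ≤ k) → (∀ x ∈ Y, x.1 ≤ k) → (∀ x ∈ F, ρ * k ≤ x.1) → (∀ x ∈ F', ρ * k ≤ x.1) →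
    perc half D (JJ X F) * perc half D (JJ Y F') ≤
      (1 + η) * (perc half D (JJ Y F) * perc half D (JJ X F')) := by
  obtain ⟨c, hc, hc1, hrsw⟩ := slab_rsw
  have hc3 : 0 < c ^ 3 := by positivity
  have hc31 : c ^ 3 ≤ 1 := pow_le_one₀ hc.le hc1
  -- the number of scales
  obtain ⟨N, hN0, hN⟩ : ∃ N : ℕ, 0 < N ∧ (1 - c ^ 3) ^ (N - 1) / (c ^ 3) ^ 2 ≤ η / 4 := by
    have hlt : 1 - c ^ 3 < 1 := by linarith
    obtain ⟨n, hn⟩ := exists_pow_lt_of_lt_one (show 0 < η / 4 * (c ^ 3) ^ 2 by positivity) hlt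
    refine ⟨n + 1, by omega, ?_⟩
    rw [Nat.add_sub_cancel, div_le_iff₀ (by positivity)]
    exact hn.le
  -- the quality of a thick slab
  obtain ⟨d, hd0, hd1, hd⟩ : ∃ d : ℝ, 0 < d ∧ d < 1 ∧ 1 + η / 4 ≤ (1 + η) * (d ^ (N + 1)) ^ 2 := by
    have hcont : Filter.Tendsto (fun d : ℝ => (1 + η) * (d ^ (N + 1)) ^ 2) (nhds 1)
        (nhds ((1 + η) * (1 ^ (N + 1)) ^ 2)) :=
      (continuous_const.mul ((continuous_id.pow (N + 1)).pow 2)).tendsto 1
    rw [one_pow, one_pow, mul_one] at hcont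
    have h1 : ∀ᶠ d : ℝ in nhds 1, 1 + η / 4 < (1 + η) * (d ^ (N + 1)) ^ 2 :=
      hcont.eventually (lt_mem_nhds (by linarith))
    rw [Metric.eventually_nhds_iff] at h1
    obtain ⟨ε, hε, h2⟩ := h1
    refine ⟨1 - min (ε / 2) (1 / 2), ?_, ?_, ?_⟩
    · have := min_le_right (ε / 2) (1 / 2 : ℝ); linarith
    · have : 0 < min (ε / 2) (1 / 2 : ℝ) := lt_min (by linarith) (by norm_num)
      linarith
    · apply (h2 _).le
      rw [Real.dist_eq]
      have h3 : 0 < min (ε / 2) (1 / 2 : ℝ) := lt_min (by linarith) (by norm_num)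
      have h4 := min_le_left (ε / 2) (1 / 2 : ℝ)
      rw [show 1 - min (ε / 2) (1 / 2 : ℝ) - 1 = -min (ε / 2) (1 / 2 : ℝ) by ring, abs_neg,
        abs_of_pos h3]
      linarith
  obtain ⟨j, hj⟩ : ∃ j : ℕ, (1 - c) ^ j ≤ 1 - d := by
    obtain ⟨n, hn⟩ := exists_pow_lt_of_lt_one (show 0 < 1 - d by linarith)
      (show 1 - c < 1 by linarith)
    exact ⟨n, hn.le⟩
  -- positions
  refine ⟨4 * (2 ^ j * (4 * 2 ^ j) ^ N), ?_, ?_⟩
  · have : 0 < 2 ^ j * (4 * 2 ^ j) ^ N := by positivity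
    omega
  intro k D hk hDw hDK X Y F F' hXD hYD hFD hFD' hX hY hF hF'
  have hk0 : 0 < k := by omega
  set a : ℕ → ℤ := fun i => (4 * 2 ^ j) ^ i * k with ha
  set b : ℕ → ℤ := fun i => 2 ^ j * a i with hb
  set m : ℕ → ℤ := fun i => 2 * b i with hm
  have ha1 : ∀ i, a (i + 1) = 4 * b i := by
    intro i; simp only [ha, hb]; ring
  have hp : (1 : ℤ) ≤ 2 ^ j := one_le_pow₀ (by norm_num)
  have hak : ∀ i, k ≤ a i := by
    intro i
    have : (1 : ℤ) ≤ (4 * 2 ^ j) ^ i := one_le_pow₀ (by omega)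
    simp only [ha]; nlinarith
  have hab : ∀ i, a i ≤ b i := by
    intro i
    have := hak i
    simp only [hb]; nlinarith
  have hmono : ∀ i n, i ≤ n → b i ≤ b n := by
    intro i n hin
    induction n, hin using Nat.le_induction with
    | base => exact le_rfl
    | succ n _ ih =>
      have h1 := hab (n + 1); have h2 := ha1 n; have h3 := hab n; have h4 := hak n
      omega
  set K : ℤ := ((4 * (2 ^ j * (4 * 2 ^ j) ^ N) : ℕ) : ℤ) * k with hKdef
  have hK : K = 4 * b N := by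
    simp only [hKdef, hb, ha]; push_cast; ring
  have hbN : b N ≤ K := by
    have := hak N; have := hab N; omega
  have hsc : Scales D N c a m b := by
    refine ⟨hab, ?_, ?_, ?_, ?_, ?_⟩
    · intro i; have := hak i; have := hab i; simp only [hm]; omega
    · intro i; have := hak i; have := hab i; have := ha1 i; simp only [hm]; omega
    · intro i hi
      have h1 := hmono i N hi.le; have h2 := hak i; have h3 := hab i
      exact (hrsw (b i) K D (by omega) (by omega) hDK).1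
    · intro i hi
      have h1 := hmono (i + 1) N hi; have h2 := hak i; have h3 := hab i; have h4 := ha1 i
      have h5 := hab (i + 1)
      have e : a (i + 1) = 2 * m i := by simp only [hm]; omega
      rw [e]
      exact (hrsw (m i) K D (by simp only [hm]; omega) (by simp only [hm]; omega) hDK).1
    · intro i hi
      have h1 := hmono i N hi.le; have h2 := hak i; have h3 := hab i
      rw [ha1 i]
      exact (hrsw (b i) K D (by omega) (by omega) hDK).2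
  have hthick : ∀ i < N + 1, d ≤ P (Xe D (a i) (b i)) Gt := by
    intro i hi
    have h1 := hmono i N (by omega); have h2 := hak i; have h3 := hab i
    have h4 := thick (fun r K D h1 h2 h3 => (hrsw r K D h1 h2 h3).1) hDK j (a i) (by omega)
      (by rw [show (2 : ℤ) ^ j * a i = b i from rfl]; omega)
    have h5 : Xe D (a i) (2 ^ j * a i) = Xe D (a i) (b i) := rfl
    rw [h5] at h4
    linarith
  have hpg := gd_prob hd0.le hthick (N + 1) le_rfl
  have hpgpos : 0 < P (edgesIn D) (gd D a b (N + 1)) := lt_of_lt_of_le (by positivity) hpg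
  have ha0 : a 0 = k := by simp only [ha, pow_zero, one_mul]
  have main := chain hDw hc hc1 hN0 hsc hpgpos hXD (fun x hx => by rw [ha0]; exact hX x hx) hYD
    (fun x hx => by rw [ha0]; exact hY x hx) hFD (fun x hx => hbN.trans (hF x hx)) hFD'
    (fun x hx => hbN.trans (hF' x hx))
  rw [Pool.Agent.Helper69.RSW.perc_half_eq, Pool.Agent.Helper69.RSW.perc_half_eq,
    Pool.Agent.Helper69.RSW.perc_half_eq, Pool.Agent.Helper69.RSW.perc_half_eq]
  set pXF := P (edgesIn D) (JJ X F)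
  set pYF' := P (edgesIn D) (JJ Y F')
  set pYF := P (edgesIn D) (JJ Y F)
  set pXF' := P (edgesIn D) (JJ X F')
  set pg := P (edgesIn D) (gd D a b (N + 1))
  have n1 : 0 ≤ pYF * pXF' := mul_nonneg (P_nonneg _ _) (P_nonneg _ _)
  have e1 : (d ^ (N + 1)) ^ 2 ≤ pg ^ 2 := pow_le_pow_left₀ (by positivity) hpg 2
  have e2 : 1 + (1 - c ^ 3) ^ (N - 1) / (c ^ 3) ^ 2 ≤ (1 + η) * pg ^ 2 := by
    have : (1 + η) * (d ^ (N + 1)) ^ 2 ≤ (1 + η) * pg ^ 2 :=
      mul_le_mul_of_nonneg_left e1 (by linarith)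
    linarith
  have e3 : pXF * pYF' * pg ^ 2 ≤ ((1 + η) * (pYF * pXF')) * pg ^ 2 := by
    calc _ ≤ _ := main
      _ ≤ ((1 + η) * pg ^ 2) * (pYF * pXF') := mul_le_mul_of_nonneg_right e2 n1
      _ = _ := by ring
  exact le_of_mul_le_mul_right e3 (by positivity)

end RatioLimit
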