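import Pool.Agent.Helper99.Ratio.Geo

/-!
Decomposition over the slabs, the kernel between two slabs and its comparability with a rank one
kernel.
-/

set_option autoImplicit false

namespace RatioLimit
open Finset SimpleGraph H47Perc
open Pool.Agent.Helper69.RSW (P Dep Up P_mono P_congr P_restrict P_indep harris P_nonneg P_le_one)

variable {D : Finset (ℤ × ℤ)}

/-! ### edge sets -/

lemma Lf_union {k k' : ℤ} (h : k ≤ k') : Lf D k ∪ Xe D k k' = Lf D k' := by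
  ext e
  rw [mem_union, mem_Lf, mem_Xe, mem_Lf]
  constructor
  · rintro (⟨h1, h2⟩ | ⟨h1, h2, h3⟩)
    · exact ⟨h1, by omega⟩
    · exact ⟨h1, h3⟩
  · rintro ⟨h1, h2⟩
    by_cases h3 : mn e < k
    · exact Or.inl ⟨h1, h3⟩
    · exact Or.inr ⟨h1, by omega, h2⟩

lemma Lf_disj (k k' : ℤ) : Disjoint (Lf D k) (Xe D k k') := by
  rw [Finset.disjoint_left]; intro e h1 h2
  rw [mem_Lf] at h1; rw [mem_Xe] at h2; omega

lemma Xe_union {k k' k'' : ℤ} (h : k ≤ k') (h' : k' ≤ k'') : Xe D k k' ∪ Xe D k' k'' = Xe D k k'' := by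
  ext e
  rw [mem_union, mem_Xe, mem_Xe, mem_Xe]
  constructor
  · rintro (⟨h1, h2, h3⟩ | ⟨h1, h2, h3⟩)
    · exact ⟨h1, by omega, by omega⟩
    · exact ⟨h1, by omega, by omega⟩
  · rintro ⟨h1, h2, h3⟩
    by_cases h4 : mn e < k'
    · exact Or.inl ⟨h1, by omega, by omega⟩
    · exact Or.inr ⟨h1, by omega, h3⟩

lemma Xe_disj {k k' l l' : ℤ} (h : k' ≤ l) : Disjoint (Xe D k k') (Xe D l l') := by
  rw [Finset.disjoint_left]; intro e h1 h2
  rw [mem_Xe] at h1 h2; omega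

lemma Xe_mono {k k' l l' : ℤ} (h : l ≤ k) (h' : k' ≤ l') : Xe D k k' ⊆ Xe D l l' := by
  intro e he
  rw [mem_Xe] at he ⊢
  exact ⟨he.1, by omega, by omega⟩

lemma Xe_Rt {k k' : ℤ} (h : k ≤ k') : Xe D k k' ∪ Rt D k' = Rt D k := by
  ext e
  rw [mem_union, mem_Xe, mem_Rt, mem_Rt]
  constructor
  · rintro (⟨h1, h2, h3⟩ | ⟨h1, h2⟩)
    · exact ⟨h1, by omega⟩
    · exact ⟨h1, by omega⟩
  · rintro ⟨h1, h2⟩
    by_cases h4 : mn e < k'
    · exact Or.inl ⟨h1, h2, h4⟩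
    · exact Or.inr ⟨h1, by omega⟩

lemma XRt_disj (k k' : ℤ) : Disjoint (Xe D k k') (Rt D k') := by
  rw [Finset.disjoint_left]; intro e h1 h2
  rw [mem_Xe] at h1; rw [mem_Rt] at h2; omega

lemma LR_union (k : ℤ) : Lf D k ∪ Rt D k = edgesIn D := by
  ext e
  rw [mem_union, mem_Lf, mem_Rt]
  constructor
  · rintro (⟨h1, _⟩ | ⟨h1, _⟩) <;> exact h1
  · intro h1
    by_cases h : mn e < k
    · exact Or.inl ⟨h1, h⟩
    · exact Or.inr ⟨h1, by omega⟩

lemma LR_disj (k : ℤ) : Disjoint (Lf D k) (Rt D k) := by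
  rw [Finset.disjoint_left]; intro e h1 h2
  rw [mem_Lf] at h1; rw [mem_Rt] at h2; omega

lemma Xe_edges {k k' : ℤ} : Xe D k k' ⊆ edgesIn D := fun _ he => (mem_Xe.1 he).1
lemma Lf_edges {k : ℤ} : Lf D k ⊆ edgesIn D := fun _ he => (mem_Lf.1 he).1
lemma Rt_edges {k : ℤ} : Rt D k ⊆ edgesIn D := fun _ he => (mem_Rt.1 he).1

/-- `X` is joined to `c` -/
def JX (X : Finset (ℤ × ℤ)) (ω : Cfg) (c : ℤ × ℤ) : Prop := ∃ x ∈ X, Joined ω x c

/-- `X` is joined to `Y` -/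
def JJ (X Y : Finset (ℤ × ℤ)) (ω : Cfg) : Prop := ∃ x ∈ X, ∃ y ∈ Y, Joined ω x y

lemma JJ_up (X Y : Finset (ℤ × ℤ)) : Up (JJ X Y) := by
  rintro S T h ⟨x, hx, y, hy, hj⟩
  exact ⟨x, hx, y, hy, joined_mono h hj⟩

/-- left factor -/
noncomputable def uu (D : Finset (ℤ × ℤ)) (A : Cfg → Prop) (X : Finset (ℤ × ℤ)) (k : ℤ) (s : Cfg) : ℝ :=
  Ex (Lf D k) (fun ω => ind (A ω ∧ JX X (ω ∪ s) (cc s)))

/-- right factor -/
noncomputable def gg (D : Finset (ℤ × ℤ)) (Y : Finset (ℤ × ℤ)) (k : ℤ) (s : Cfg) : ℝ :=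
  Ex (Rt D k) (fun ω => ind (JX Y (s ∪ ω) (cc s)))

/-- the kernel -/
noncomputable def mm (D : Finset (ℤ × ℤ)) (k k' : ℤ) (s s' : Cfg) : ℝ :=
  Ex (Xe D k k') (fun ω => ind (Joined (s ∪ ω ∪ s') (cc s) (cc s')))

/-- `a` factor -/
noncomputable def al (D : Finset (ℤ × ℤ)) (k k' : ℤ) (s : Cfg) : ℝ :=
  Ex (Xe D k k') (fun ω => ind (∃ v : ℤ × ℤ, k' ≤ v.1 ∧ Joined (s ∪ ω) (cc s) v))

/-- `b` factor -/
noncomputable def be (D : Finset (ℤ × ℤ)) (k k' : ℤ) (s' : Cfg) : ℝ :=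
  Ex (Xe D k k') (fun ω => ind (∃ v : ℤ × ℤ, v.1 ≤ k ∧ Joined (ω ∪ s') (cc s') v))

/-- **Recursion** -/
theorem recursion (hD : ∀ z ∈ D, z ∈ wedge) {A : Cfg → Prop} {X : Finset (ℤ × ℤ)}
    {r0 r1 r3 r4 : ℤ} (h01 : r0 ≤ r1) (h13 : r1 ≤ r3) (hA : Dep (Lf D r0) A)
    (hXD : X ⊆ D) (hX : ∀ x ∈ X, x.1 ≤ r0) {s' : Cfg} (hs' : s' ⊆ Xe D r3 r4) (hG' : Gt s') :
    uu D (fun ω => A ω ∧ Gt (ω ∩ Xe D r0 r1)) X r3 s' =
      Ex (Xe D r0 r1) (fun s => ind (Gt s) * uu D A X r0 s * mm D r1 r3 s s') := by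
  unfold uu mm
  have hU : Lf D r3 = Lf D r0 ∪ (Xe D r0 r1 ∪ Xe D r1 r3) := by
    rw [← union_assoc, Lf_union h01, Lf_union h13]
  have hd1 : Disjoint (Lf D r0) (Xe D r0 r1 ∪ Xe D r1 r3) := by
    rw [Xe_union h01 h13]; exact Lf_disj _ _
  rw [hU, Ex_union hd1]
  have key : ∀ ωL ⊆ Lf D r0, ∀ s ⊆ Xe D r0 r1, ∀ ωM ⊆ Xe D r1 r3,
      ind ((A (ωL ∪ (s ∪ ωM)) ∧ Gt ((ωL ∪ (s ∪ ωM)) ∩ Xe D r0 r1)) ∧
        JX X (ωL ∪ (s ∪ ωM) ∪ s') (cc s')) =
      ind (Gt s) * ind (A ωL ∧ JX X (ωL ∪ s) (cc s)) * ind (Joined (s ∪ ωM ∪ s') (cc s) (cc s')) := by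
    intro ωL hL s hs ωM hM
    have eA : A (ωL ∪ (s ∪ ωM)) ↔ A ωL := by
      rw [hA (ωL ∪ (s ∪ ωM)), hA ωL]
      have : (ωL ∪ (s ∪ ωM)) ∩ Lf D r0 = ωL ∩ Lf D r0 := by
        ext e
        simp only [mem_inter, mem_union]
        constructor
        · rintro ⟨h1 | h1 | h1, h2⟩
          · exact ⟨h1, h2⟩
          · have h3 := mem_Xe.1 (hs h1); have h4 := mem_Lf.1 h2; omega
          · have h3 := mem_Xe.1 (hM h1); have h4 := mem_Lf.1 h2; omega
        · rintro ⟨h1, h2⟩; exact ⟨Or.inl h1, h2⟩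
      rw [this]
    have eG : (ωL ∪ (s ∪ ωM)) ∩ Xe D r0 r1 = s := by
      ext e
      simp only [mem_inter, mem_union]
      constructor
      · rintro ⟨h1 | h1 | h1, h2⟩
        · have h3 := mem_Lf.1 (hL h1); have h4 := mem_Xe.1 h2; omega
        · exact h1
        · have h3 := mem_Xe.1 (hM h1); have h4 := mem_Xe.1 h2; omega
      · intro h1; exact ⟨Or.inr (Or.inl h1), hs h1⟩
    rw [eG]
    by_cases hG : Gt s
    · rw [ind_true hG, one_mul, ← ind_and]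
      apply ind_congr
      have hω : ωL ∪ (s ∪ ωM) ∪ s' ⊆ edgesIn D :=
        union_subset (union_subset (hL.trans Lf_edges) (union_subset (hs.trans Xe_edges)
          (hM.trans Xe_edges))) (hs'.trans Xe_edges)
      have hc := cc_spec hG
      have hc' := cc_spec hG'
      have v' := hc'.vert hs'
      constructor
      · rintro ⟨⟨h1, _⟩, x, hx, hj⟩
        have hsω : s ⊆ ωL ∪ (s ∪ ωM) ∪ s' := fun e he => by
          simp only [mem_union]; exact Or.inl (Or.inr (Or.inl he))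
        have cl := cut_left hD hω hs hsω hc (hXD hx) hj (hX x hx) (by omega)
        have cr := cut_right hD hω hs hsω hc v'.1 hj (hX x hx) (by omega)
        refine ⟨⟨eA.1 h1, x, hx, joined_mono ?_ cl⟩, joined_mono ?_ cr⟩
        · intro e he
          simp only [mem_inter, mem_union] at he ⊢
          obtain ⟨((h2 | h2 | h2) | h2), h3⟩ := he
          · exact Or.inl h2
          · exact Or.inr h2
          · have h4 := mem_Xe.1 (hM h2); have h5 := mem_Lf.1 h3; omega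
          · have h4 := mem_Xe.1 (hs' h2); have h5 := mem_Lf.1 h3; omega
        · intro e he
          simp only [mem_inter, mem_union] at he ⊢
          obtain ⟨((h2 | h2 | h2) | h2), h3⟩ := he
          · have h4 := mem_Lf.1 (hL h2); have h5 := mem_Rt.1 h3; omega
          · exact Or.inl (Or.inl h2)
          · exact Or.inl (Or.inr h2)
          · exact Or.inr h2
      · rintro ⟨⟨h1, x, hx, hj⟩, hj'⟩
        refine ⟨⟨eA.2 h1, hG⟩, x, hx, joined_trans (joined_mono ?_ hj) (joined_mono ?_ hj')⟩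
        · intro e he
          simp only [mem_union] at he ⊢
          tauto
        · intro e he
          simp only [mem_union] at he ⊢
          tauto
    · rw [ind_false hG, zero_mul, zero_mul, ind_false (fun h => hG h.1.2)]
  calc Ex (Lf D r0) (fun ωL => Ex (Xe D r0 r1 ∪ Xe D r1 r3) (fun T =>
        ind ((A (ωL ∪ T) ∧ Gt ((ωL ∪ T) ∩ Xe D r0 r1)) ∧ JX X (ωL ∪ T ∪ s') (cc s'))))
      = Ex (Lf D r0) (fun ωL => Ex (Xe D r0 r1) (fun s => Ex (Xe D r1 r3) (fun ωM =>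
        ind ((A (ωL ∪ (s ∪ ωM)) ∧ Gt ((ωL ∪ (s ∪ ωM)) ∩ Xe D r0 r1)) ∧
          JX X (ωL ∪ (s ∪ ωM) ∪ s') (cc s'))))) := by
        refine Ex_congr fun ωL _ => ?_
        rw [Ex_union (Xe_disj le_rfl)]
    _ = Ex (Lf D r0) (fun ωL => Ex (Xe D r0 r1) (fun s => Ex (Xe D r1 r3) (fun ωM =>
        ind (Gt s) * ind (A ωL ∧ JX X (ωL ∪ s) (cc s)) *
          ind (Joined (s ∪ ωM ∪ s') (cc s) (cc s'))))) :=
        Ex_congr fun ωL hL => Ex_congr fun s hs => Ex_congr fun ωM hM => key ωL hL s hs ωM hM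
    _ = Ex (Xe D r0 r1) (fun s => Ex (Lf D r0) (fun ωL => Ex (Xe D r1 r3) (fun ωM =>
        ind (Gt s) * ind (A ωL ∧ JX X (ωL ∪ s) (cc s)) *
          ind (Joined (s ∪ ωM ∪ s') (cc s) (cc s'))))) := Ex_comm _ _ _
    _ = _ := by
        refine Ex_congr fun s _ => ?_
        simp only [Ex_const_mul, Ex_mul_const]

/-- **Last step** -/
theorem last_step (hD : ∀ z ∈ D, z ∈ wedge) {A : Cfg → Prop} {X Y : Finset (ℤ × ℤ)}
    {r0 r1 : ℤ} (h01 : r0 ≤ r1) (hA : Dep (Lf D r0) A)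
    (hXD : X ⊆ D) (hX : ∀ x ∈ X, x.1 ≤ r0) (hYD : Y ⊆ D) (hY : ∀ y ∈ Y, r1 ≤ y.1) :
    Ex (edgesIn D) (fun ω => ind ((A ω ∧ Gt (ω ∩ Xe D r0 r1)) ∧ JJ X Y ω)) =
      Ex (Xe D r0 r1) (fun s => ind (Gt s) * uu D A X r0 s * gg D Y r1 s) := by
  unfold uu gg
  have hU : edgesIn D = Lf D r0 ∪ (Xe D r0 r1 ∪ Rt D r1) := by
    rw [Xe_Rt h01, LR_union]
  have hd1 : Disjoint (Lf D r0) (Xe D r0 r1 ∪ Rt D r1) := by
    rw [Xe_Rt h01]; exact LR_disj _
  have hE : edgesIn D ⊆ edgesIn D := subset_refl _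
  have key : ∀ ωL ⊆ Lf D r0, ∀ s ⊆ Xe D r0 r1, ∀ ωM ⊆ Rt D r1,
      ind ((A (ωL ∪ (s ∪ ωM)) ∧ Gt ((ωL ∪ (s ∪ ωM)) ∩ Xe D r0 r1)) ∧
        JJ X Y (ωL ∪ (s ∪ ωM))) =
      ind (Gt s) * ind (A ωL ∧ JX X (ωL ∪ s) (cc s)) * ind (JX Y (s ∪ ωM) (cc s)) := by
    intro ωL hL s hs ωM hM
    have eA : A (ωL ∪ (s ∪ ωM)) ↔ A ωL := by
      rw [hA (ωL ∪ (s ∪ ωM)), hA ωL]
      have : (ωL ∪ (s ∪ ωM)) ∩ Lf D r0 = ωL ∩ Lf D r0 := by
        ext e
        simp only [mem_inter, mem_union]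
        constructor
        · rintro ⟨h1 | h1 | h1, h2⟩
          · exact ⟨h1, h2⟩
          · have h3 := mem_Xe.1 (hs h1); have h4 := mem_Lf.1 h2; omega
          · have h3 := mem_Rt.1 (hM h1); have h4 := mem_Lf.1 h2; omega
        · rintro ⟨h1, h2⟩; exact ⟨Or.inl h1, h2⟩
      rw [this]
    have eG : (ωL ∪ (s ∪ ωM)) ∩ Xe D r0 r1 = s := by
      ext e
      simp only [mem_inter, mem_union]
      constructor
      · rintro ⟨h1 | h1 | h1, h2⟩
        · have h3 := mem_Lf.1 (hL h1); have h4 := mem_Xe.1 h2; omega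
        · exact h1
        · have h3 := mem_Rt.1 (hM h1); have h4 := mem_Xe.1 h2; omega
      · intro h1; exact ⟨Or.inr (Or.inl h1), hs h1⟩
    rw [eG]
    by_cases hG : Gt s
    · rw [ind_true hG, one_mul, ← ind_and]
      apply ind_congr
      have hω : ωL ∪ (s ∪ ωM) ⊆ edgesIn D :=
        union_subset (hL.trans Lf_edges) (union_subset (hs.trans Xe_edges) (hM.trans Rt_edges))
      have hc := cc_spec hG
      constructor
      · rintro ⟨⟨h1, _⟩, x, hx, y, hy, hj⟩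
        have hsω : s ⊆ ωL ∪ (s ∪ ωM) := fun e he => by
          simp only [mem_union]; exact Or.inr (Or.inl he)
        have cl := cut_left hD hω hs hsω hc (hXD hx) hj (hX x hx) (hY y hy)
        have cr := cut_right hD hω hs hsω hc (hYD hy) hj (hX x hx) (hY y hy)
        refine ⟨⟨eA.1 h1, x, hx, joined_mono ?_ cl⟩, y, hy, joined_symm (joined_mono ?_ cr)⟩
        · intro e he
          simp only [mem_inter, mem_union] at he ⊢
          obtain ⟨(h2 | h2 | h2), h3⟩ := he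
          · exact Or.inl h2
          · exact Or.inr h2
          · have h4 := mem_Rt.1 (hM h2); have h5 := mem_Lf.1 h3; omega
        · intro e he
          simp only [mem_inter, mem_union] at he ⊢
          obtain ⟨(h2 | h2 | h2), h3⟩ := he
          · have h4 := mem_Lf.1 (hL h2); have h5 := mem_Rt.1 h3; omega
          · exact Or.inl h2
          · exact Or.inr h2
      · rintro ⟨⟨h1, x, hx, hj⟩, y, hy, hj'⟩
        refine ⟨⟨eA.2 h1, hG⟩, x, hx, y, hy, joined_trans (joined_mono ?_ hj)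
          (joined_mono ?_ (joined_symm hj'))⟩
        · intro e he
          simp only [mem_union] at he ⊢
          tauto
        · intro e he
          simp only [mem_union] at he ⊢
          tauto
    · rw [ind_false hG, zero_mul, zero_mul, ind_false (fun h => hG h.1.2)]
  calc Ex (edgesIn D) (fun ω => ind ((A ω ∧ Gt (ω ∩ Xe D r0 r1)) ∧ JJ X Y ω))
      = Ex (Lf D r0) (fun ωL => Ex (Xe D r0 r1) (fun s => Ex (Rt D r1) (fun ωM =>
        ind ((A (ωL ∪ (s ∪ ωM)) ∧ Gt ((ωL ∪ (s ∪ ωM)) ∩ Xe D r0 r1)) ∧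
          JJ X Y (ωL ∪ (s ∪ ωM)))))) := by
        rw [hU, Ex_union hd1]
        refine Ex_congr fun ωL _ => ?_
        rw [Ex_union (XRt_disj _ _)]
    _ = Ex (Lf D r0) (fun ωL => Ex (Xe D r0 r1) (fun s => Ex (Rt D r1) (fun ωM =>
        ind (Gt s) * ind (A ωL ∧ JX X (ωL ∪ s) (cc s)) *
          ind (JX Y (s ∪ ωM) (cc s))))) :=
        Ex_congr fun ωL hL => Ex_congr fun s hs => Ex_congr fun ωM hM => key ωL hL s hs ωM hM
    _ = Ex (Xe D r0 r1) (fun s => Ex (Lf D r0) (fun ωL => Ex (Rt D r1) (fun ωM =>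
        ind (Gt s) * ind (A ωL ∧ JX X (ωL ∪ s) (cc s)) *
          ind (JX Y (s ∪ ωM) (cc s))))) := Ex_comm _ _ _
    _ = _ := by
        refine Ex_congr fun s _ => ?_
        simp only [Ex_const_mul, Ex_mul_const]

/-- upper bound of the kernel -/
theorem mm_le {r0 r1 r2 r3 r4 : ℤ} (h12 : r1 ≤ r2)
    (h23 : r2 ≤ r3) {s s' : Cfg} (hs : s ⊆ Xe D r0 r1) (hs' : s' ⊆ Xe D r3 r4) (hG : Gt s)
    (hG' : Gt s') : mm D r1 r3 s s' ≤ al D r1 r2 s * be D r2 r3 s' := by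
  unfold mm al be
  rw [← Xe_union h12 h23, Ex_union (Xe_disj le_rfl), ← Ex_mul_const]
  refine Ex_mono fun ω₁ h1 => ?_
  rw [← Ex_const_mul]
  refine Ex_mono fun ω₃ h3 => ?_
  rw [← ind_and]
  apply ind_mono
  intro hj
  have hω : s ∪ (ω₁ ∪ ω₃) ∪ s' ⊆ edgesIn D :=
    union_subset (union_subset (hs.trans Xe_edges) (union_subset (h1.trans Xe_edges)
      (h3.trans Xe_edges))) (hs'.trans Xe_edges)
  have v := (cc_spec hG).vert hs
  have v' := (cc_spec hG').vert hs'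
  constructor
  · obtain ⟨w, hw1, hw2⟩ := reach_right (k := r2) hω hj (by omega)
    refine ⟨w, hw1, joined_mono ?_ hw2⟩
    intro e he
    simp only [mem_inter, mem_union] at he ⊢
    obtain ⟨((h2 | h2 | h2) | h2), h4⟩ := he
    · exact Or.inl h2
    · exact Or.inr h2
    · have h5 := mem_Xe.1 (h3 h2); have h6 := mem_Lf.1 h4; omega
    · have h5 := mem_Xe.1 (hs' h2); have h6 := mem_Lf.1 h4; omega
  · obtain ⟨w, hw1, hw2⟩ := reach_left (k := r2) hω (joined_symm hj) (by omega)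
    refine ⟨w, hw1, joined_mono ?_ hw2⟩
    intro e he
    simp only [mem_inter, mem_union] at he ⊢
    obtain ⟨((h2 | h2 | h2) | h2), h4⟩ := he
    · have h5 := mem_Xe.1 (hs h2); have h6 := mem_Rt.1 h4; omega
    · have h5 := mem_Xe.1 (h1 h2); have h6 := mem_Rt.1 h4; omega
    · exact Or.inl h2
    · exact Or.inr h2

/-- there is an open path from `x ≤ k` to `x ≥ k'` -/
def Hc (D : Finset (ℤ × ℤ)) (k k' : ℤ) (ω : Cfg) : Prop :=
  ∃ z z' : ℤ × ℤ, z ∈ D ∧ z.1 ≤ k ∧ k' ≤ z'.1 ∧ Joined ω z z'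

lemma P_Ex_inter {F G : Cfg} (h : G ⊆ F) (A : Cfg → Prop) :
    P F (fun ω => A (ω ∩ G)) = Ex G (fun ω => ind (A ω)) := by
  rw [← P_eq]
  exact H46.P_inter h A

/-- lower bound of the kernel -/
theorem le_mm (hD : ∀ z ∈ D, z ∈ wedge) {r0 r1 r2 r3 r4 : ℤ} {c : ℝ} (hc : 0 < c)
    (h12 : r1 ≤ r2) (h23 : r2 ≤ r3)
    (V1 : c ≤ P (Xe D r1 r2) Gt) (V3 : c ≤ P (Xe D r2 r3) Gt) (H : c ≤ P (Xe D r1 r3) (Hc D r1 r3))
    {s s' : Cfg} (hs : s ⊆ Xe D r0 r1) (hs' : s' ⊆ Xe D r3 r4) (hG : Gt s)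
    (hG' : Gt s') : c ^ 3 * (al D r1 r2 s * be D r2 r3 s') ≤ mm D r1 r3 s s' := by
  set F := Xe D r1 r3 with hF
  have s1 : Xe D r1 r2 ⊆ F := Xe_mono le_rfl h23
  have s3 : Xe D r2 r3 ⊆ F := Xe_mono h12 le_rfl
  -- events
  obtain ⟨E1, hE1⟩ : ∃ E : Cfg → Prop, E = fun ω => ∃ v : ℤ × ℤ, r2 ≤ v.1 ∧
    Joined (s ∪ (ω ∩ Xe D r1 r2)) (cc s) v := ⟨_, rfl⟩
  obtain ⟨E3, hE3⟩ : ∃ E : Cfg → Prop, E = fun ω => ∃ v : ℤ × ℤ, v.1 ≤ r2 ∧
    Joined ((ω ∩ Xe D r2 r3) ∪ s') (cc s') v := ⟨_, rfl⟩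
  obtain ⟨G1, hG1⟩ : ∃ E : Cfg → Prop, E = fun ω => Gt (ω ∩ Xe D r1 r2) := ⟨_, rfl⟩
  obtain ⟨G3, hG3⟩ : ∃ E : Cfg → Prop, E = fun ω => Gt (ω ∩ Xe D r2 r3) := ⟨_, rfl⟩
  have p1 : P F E1 = al D r1 r2 s := by
    rw [hE1]
    exact P_Ex_inter s1 (fun ω => ∃ v : ℤ × ℤ, r2 ≤ v.1 ∧ Joined (s ∪ ω) (cc s) v)
  have p3 : P F E3 = be D r2 r3 s' := by
    rw [hE3]
    exact P_Ex_inter s3 (fun ω => ∃ v : ℤ × ℤ, v.1 ≤ r2 ∧ Joined (ω ∪ s') (cc s') v)
  have pg1 : P F G1 = P (Xe D r1 r2) Gt := by rw [hG1]; exact H46.P_inter s1 Gt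
  have pg3 : P F G3 = P (Xe D r2 r3) Gt := by rw [hG3]; exact H46.P_inter s3 Gt
  have uE1 : Up E1 := by
    rw [hE1]
    rintro S T hST ⟨v, hv, hj⟩
    exact ⟨v, hv, joined_mono (union_subset_union (subset_refl _) (inter_subset_inter_right hST)) hj⟩
  have uE3 : Up E3 := by
    rw [hE3]
    rintro S T hST ⟨v, hv, hj⟩
    exact ⟨v, hv, joined_mono (union_subset_union (inter_subset_inter_right hST) (subset_refl _)) hj⟩
  have uG1 : Up G1 := by rw [hG1]; exact fun S T hST h => h.mono (inter_subset_inter_right hST)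
  have uG3 : Up G3 := by rw [hG3]; exact fun S T hST h => h.mono (inter_subset_inter_right hST)
  have uH : Up (Hc D r1 r3) := by
    rintro S T hST ⟨z, z', h1, h2, h3, h4⟩
    exact ⟨z, z', h1, h2, h3, joined_mono hST h4⟩
  have i1 := harris F uE1 uE3
  have i2 := harris F (uE1.and uE3) uG1
  have i3 := harris F ((uE1.and uE3).and uG1) uG3
  have i4 := harris F (((uE1.and uE3).and uG1).and uG3) uH
  rw [p1, p3] at i1
  have hab : 0 ≤ al D r1 r2 s * be D r2 r3 s' := by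
    rw [← p1, ← p3]; exact mul_nonneg (P_nonneg _ _) (P_nonneg _ _)
  have j2 : (al D r1 r2 s * be D r2 r3 s') * c ≤ P F (fun S => (E1 S ∧ E3 S) ∧ G1 S) := by
    refine le_trans ?_ i2
    rw [pg1]
    exact mul_le_mul i1 V1 hc.le (P_nonneg _ _)
  have j3 : (al D r1 r2 s * be D r2 r3 s') * c * c ≤
      P F (fun S => ((E1 S ∧ E3 S) ∧ G1 S) ∧ G3 S) := by
    refine le_trans ?_ i3
    rw [pg3]
    exact mul_le_mul j2 V3 hc.le (P_nonneg _ _)
  have j4 : (al D r1 r2 s * be D r2 r3 s') * c * c * c ≤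
      P F (fun S => (((E1 S ∧ E3 S) ∧ G1 S) ∧ G3 S) ∧ Hc D r1 r3 S) := by
    refine le_trans ?_ i4
    exact mul_le_mul j3 H hc.le (P_nonneg _ _)
  calc c ^ 3 * (al D r1 r2 s * be D r2 r3 s') = (al D r1 r2 s * be D r2 r3 s') * c * c * c := by ring
    _ ≤ _ := j4
    _ ≤ P F (fun ω => Joined (s ∪ ω ∪ s') (cc s) (cc s')) := by
        apply P_mono
        rw [hE1, hE3, hG1, hG3]
        rintro ω hω ⟨⟨⟨⟨⟨v, hv1, hv2⟩, ⟨v', hv1', hv2'⟩⟩, ⟨c1, hc1⟩⟩, ⟨c3, hc3⟩⟩, z, z', hz, hz1, hz2, hz3⟩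
        have hω' : s ∪ ω ∪ s' ⊆ edgesIn D :=
          union_subset (union_subset (hs.trans Xe_edges) (hω.trans Xe_edges)) (hs'.trans Xe_edges)
        have vs := (cc_spec hG).vert hs
        have vs' := (cc_spec hG').vert hs'
        have t1 : ω ∩ Xe D r1 r2 ⊆ s ∪ ω ∪ s' := fun e he => by
          rw [mem_inter] at he; simp only [mem_union]; exact Or.inl (Or.inr he.1)
        have t3 : ω ∩ Xe D r2 r3 ⊆ s ∪ ω ∪ s' := fun e he => by
          rw [mem_inter] at he; simp only [mem_union]; exact Or.inl (Or.inr he.1)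
        have a1 : Joined (s ∪ ω ∪ s') (cc s) v := joined_mono (fun e he => by
          simp only [mem_union, mem_inter] at he ⊢; tauto) hv2
        have a3 : Joined (s ∪ ω ∪ s') (cc s') v' := joined_mono (fun e he => by
          simp only [mem_union, mem_inter] at he ⊢; tauto) hv2'
        have ah : Joined (s ∪ ω ∪ s') z z' := joined_mono (fun e he => by
          simp only [mem_union] at he ⊢; tauto) hz3
        have hv'D : v' ∈ D := mem_of_joined hω' a3 vs'.1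
        have b1 := meet_joined hD hω' inter_subset_right t1 hc1 vs.1 a1 (by omega) (by omega)
        have b2 := meet_joined hD hω' inter_subset_right t1 hc1 hz ah (by omega) (by omega)
        have b3 := meet_joined hD hω' inter_subset_right t3 hc3 hz ah (by omega) (by omega)
        have b4 := meet_joined hD hω' inter_subset_right t3 hc3 hv'D (joined_symm a3)
          (by omega) (by omega)
        exact joined_trans b1 (joined_trans (joined_symm b2) (joined_trans b3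
          (joined_trans (joined_symm b4) (joined_symm a3))))
    _ = mm D r1 r3 s s' := by rw [P_eq]; rfl

end RatioLimit
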