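import Pool.Agent.Helper99.Ratio.Scale

/-!
Crossings of slabs of the strip `0 ≤ x + y ≤ L` from one side of the strip to the other, and the
comparison of connection probabilities in domains of the strip that agree for `x ≤ K`.
-/

set_option autoImplicit false

namespace RatioLimit
open Finset SimpleGraph H47Perc
open Pool.Agent.Helper69.RSW (P Dep Up P_mono P_congr P_restrict P_indep harris P_nonneg P_le_one
  P_compl)

variable {D : Finset (ℤ × ℤ)}

/-- `c` is joined in `s` to both sides of the strip -/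
def CrS (L : ℤ) (s : Cfg) (c : ℤ × ℤ) : Prop :=
  ∃ lo up : ℤ × ℤ, lo.1 + lo.2 = 0 ∧ up.1 + up.2 = L ∧ Joined s c lo ∧ Joined s c up

/-- there is a crossing -/
def GtS (L : ℤ) (s : Cfg) : Prop := ∃ c, CrS L s c

lemma CrS.mono {L : ℤ} {s t : Cfg} (h : s ⊆ t) {c : ℤ × ℤ} (hc : CrS L s c) : CrS L t c := by
  obtain ⟨lo, up, h1, h2, h3, h4⟩ := hc
  exact ⟨lo, up, h1, h2, joined_mono h h3, joined_mono h h4⟩

lemma GtS.mono {L : ℤ} {s t : Cfg} (h : s ⊆ t) (hs : GtS L s) : GtS L t := by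
  obtain ⟨c, hc⟩ := hs; exact ⟨c, hc.mono h⟩

lemma GtS_up (L : ℤ) : Up (GtS L) := fun _ _ h hs => hs.mono h

lemma CrS.vert {L : ℤ} (hL : 0 < L) {k k' : ℤ} {s : Cfg} (hs : s ⊆ Xe D k k') {c : ℤ × ℤ}
    (hc : CrS L s c) : c ∈ D ∧ k ≤ c.1 ∧ c.1 ≤ k' := by
  obtain ⟨lo, up, h1, h2, h3, h4⟩ := hc
  by_cases h : c = lo
  · exact vert_of_joined hs h4 (by rw [h]; intro h5; rw [h5] at h1; omega)
  · exact vert_of_joined hs h3 h

/-- **Meeting lemma** in the strip -/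
theorem meetS {L : ℤ} (hL : 0 < L) {k k' : ℤ} {s : Cfg} (hs : s ⊆ Xe D k k') {c : ℤ × ℤ}
    (hc : CrS L s c) {a b : ℤ × ℤ} (q : lattice.Walk a b)
    (hq : ∀ w ∈ q.support, 0 ≤ w.1 + w.2 ∧ w.1 + w.2 ≤ L)
    (ha : a.1 ≤ k) (hb : k' ≤ b.1) : ∃ w ∈ q.support, Joined s c w := by
  classical
  obtain ⟨lo, up, h1, h2, h3, h4⟩ := hc
  have hne : up ≠ lo := by rintro rfl; omega
  have hul : Joined s up lo := joined_trans (joined_symm h4) h3
  have hse : ∀ e ∈ s, e ∈ lattice.edgeSet := fun e he => edge_lattice (mem_Xe.1 (hs he)).1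
  obtain ⟨p0, hp0⟩ := joined_walk hse hul
  have hp0j : ∀ w ∈ p0.support, Joined s up w := fun w hw =>
    walk_joined (p0.takeUntil w hw) (fun e he => hp0 e (p0.edges_takeUntil_subset_edges hw he))
  have hp0x : ∀ w ∈ p0.support, k ≤ w.1 ∧ w.1 ≤ k' := by
    intro w hw
    by_cases h : w = up
    · subst h; exact (vert_of_joined hs hul hne).2
    · exact (vert_of_joined hs (joined_symm (hp0j w hw)) h).2
  have hupx := hp0x up p0.start_mem_support
  have hlox := hp0x lo p0.end_mem_support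
  obtain ⟨H0, hH0⟩ := list_bound (up :: lo :: q.support)
  -- a height
  set H : ℤ := H0 + 1 with hH
  have bu : |up.2| ≤ H0 := hH0 up (by simp)
  have bl : |lo.2| ≤ H0 := hH0 lo (by simp)
  have bq : ∀ w ∈ q.support, |w.2| ≤ H0 := fun w hw => hH0 w (by simp [hw])
  rw [abs_le] at bu bl
  have hH0n : 0 ≤ H0 := by omega
  obtain ⟨n1, hn1⟩ : ∃ n : ℕ, H = up.2 + n := ⟨(H - up.2).toNat, by omega⟩
  obtain ⟨n2, hn2⟩ : ∃ n : ℕ, lo.2 = -H + n := ⟨(lo.2 + H).toNat, by omega⟩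
  obtain ⟨p1, hp1⟩ := vwalk up.1 up.2 n1
  obtain ⟨p2, hp2⟩ := vwalk lo.1 (-H) n2
  have e1 : ((up.1, up.2) : ℤ × ℤ) = up := rfl
  have e2 : ((lo.1, -H + (n2 : ℤ)) : ℤ × ℤ) = lo := by rw [← hn2]
  obtain ⟨w, hw1, hw2⟩ : ∃ w, w ∈ ((p1.copy (by rw [← hn1]) e1).append
      (p0.append (p2.copy e2 rfl))).support ∧ w ∈ q.support := by
    apply crossing_walks (u := (up.1, H)) (v := (lo.1, -H))
    · simp only; omega
    · intro w hw
      have := bq w hw
      rw [abs_le] at this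
      simp only; omega
    · intro w hw
      rw [Walk.mem_support_append_iff, Walk.mem_support_append_iff, Walk.support_copy,
        Walk.support_copy] at hw
      rcases hw with hw | hw | hw
      · have := hp1 w hw; omega
      · have := hp0x w hw; omega
      · have := hp2 w hw; omega
    · intro w hw
      rw [Walk.mem_support_append_iff, Walk.mem_support_append_iff, Walk.support_copy,
        Walk.support_copy] at hw
      rcases hw with hw | hw | hw
      · have := hp1 w hw; omega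
      · have := hp0x w hw; omega
      · have := hp2 w hw; omega
  refine ⟨w, hw2, ?_⟩
  have hww := hq w hw2
  obtain ⟨hw3, hw4⟩ := hww
  rw [Walk.mem_support_append_iff, Walk.mem_support_append_iff, Walk.support_copy,
    Walk.support_copy] at hw1
  rcases hw1 with hw | hw | hw
  · have h5 := hp1 w hw
    have : w = up := Prod.ext h5.1 (by omega)
    rw [this]; exact h4
  · exact joined_trans h4 (hp0j w hw)
  · have h5 := hp2 w hw
    have : w = lo := Prod.ext h5.1 (by omega)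
    rw [this]; exact h3

/-- a vertical crossing of a tall box contains a crossing of the slab of the strip -/
theorem GtS_of_BT {L : ℤ} (hL : 0 < L) {r r' K : ℤ} (hr : L ≤ r) (hK : r' ≤ K)
    (hDK : ∀ z : ℤ × ℤ, 0 ≤ z.1 + z.2 → z.1 + z.2 ≤ L → 1 ≤ z.1 - z.2 → z.1 ≤ K → z ∈ D)
    {h1 h2 : ℤ} (hh1 : h1 ≤ -r') (hh2 : L - r ≤ h2)
    {ω : Cfg} (hω : ω ⊆ edgesIn (box r (r' - 1) h1 h2)) (hB : BT r (r' - 1) h1 h2 ω) :
    GtS L (ω ∩ Xe D r r') := by
  obtain ⟨x, x', hx1, hx2, hx3, hx4, hj⟩ := hB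
  obtain ⟨q, hq⟩ := joined_walk (fun e he => edge_lattice (hω he)) hj
  have hstart : ((x, h1) : ℤ × ℤ) ∈ box r (r' - 1) h1 h2 := by
    rw [mem_box]; simp only; omega
  have hbox := support_subset q (fun e he => hω (hq e he)) hstart
  -- first visit of the upper side
  obtain ⟨v, hv, hv1, hv2, q₁, g1, g2, g3, g4⟩ := first_visit'
    (fun w : ℤ × ℤ => L ≤ w.1 + w.2) q (by simp only; omega)
  have hnS : ¬ L ≤ ((x, h1) : ℤ × ℤ).1 + ((x, h1) : ℤ × ℤ).2 := by simp only; omega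
  obtain ⟨w, hw1, hw2⟩ := hv2 hnS
  have hv3 : v.1 + v.2 = L := by
    rcases adj_cases hw1 with h | h <;> omega
  have hvbox := hbox v (g2 v q₁.end_mem_support)
  rw [mem_box] at hvbox
  -- first visit of the lower side, backwards
  obtain ⟨u, hu, hu1, hu2, q₂, f1, f2, f3, f4⟩ := first_visit'
    (fun w : ℤ × ℤ => w.1 + w.2 ≤ 0) q₁.reverse (by simp only; omega)
  have hnS' : ¬ v.1 + v.2 ≤ 0 := by omega
  obtain ⟨w', hw1', hw2'⟩ := hu2 hnS'
  have hu3 : u.1 + u.2 = 0 := by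
    rcases adj_cases hw1' with h | h <;> omega
  have hq2s : ∀ z ∈ q₂.support, z ∈ q₁.support := by
    intro z hz
    have := f2 z hz
    rwa [Walk.support_reverse, List.mem_reverse] at this
  have hmem : ∀ z ∈ q₂.support, z ∈ D ∧ r ≤ z.1 ∧ z.1 < r' := by
    intro z hz
    have h1' := hbox z (g2 z (hq2s z hz))
    rw [mem_box] at h1'
    have a1 : 0 ≤ z.1 + z.2 := by
      by_cases hzu : z = u
      · rw [hzu]; omega
      · have := f3 z hz hzu; omega
    have a2 : z.1 + z.2 ≤ L := by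
      by_cases hzv : z = v
      · rw [hzv]; omega
      · have := g3 z (hq2s z hz) hzv; omega
    exact ⟨hDK z a1 a2 (by omega) (by omega), by omega, by omega⟩
  have hjq : Joined (ω ∩ Xe D r r') v u := by
    apply walk_joined q₂
    intro e he
    have he1 : e ∈ q₁.edges := by
      have := f1 e he
      rwa [Walk.edges_reverse, List.mem_reverse] at this
    have he2 := hq e (g1 e he1)
    rw [mem_inter]
    refine ⟨he2, ?_⟩
    induction e using Sym2.ind with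
    | _ z z' =>
      have m1 := hmem z (Walk.fst_mem_support_of_mem_edges _ he)
      have m2 := hmem z' (Walk.snd_mem_support_of_mem_edges _ he)
      have hadj := (mem_edgesIn.1 (hω he2)).2.2
      rw [mem_Xe, mem_edgesIn, mn_mk]
      exact ⟨⟨m1.1, m2.1, hadj⟩, le_min m1.2.1 m2.2.1, lt_of_le_of_lt (min_le_left _ _) m1.2.2⟩
  exact ⟨v, u, v, hu3, hv3, hjq, joined_refl _ _⟩

/-- RSW for slabs of the strip -/
theorem slabS_rsw : ∃ c : ℝ, 0 < c ∧ c ≤ 1 ∧ ∀ (L r K : ℤ) (D : Finset (ℤ × ℤ)), 1 ≤ L → L ≤ r →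
    r + (L + 1) ≤ K →
    (∀ z : ℤ × ℤ, 0 ≤ z.1 + z.2 → z.1 + z.2 ≤ L → 1 ≤ z.1 - z.2 → z.1 ≤ K → z ∈ D) →
    c ≤ P (Xe D r (r + (L + 1))) (GtS L) := by
  obtain ⟨c1, hc1, h1⟩ := H46.rsw 3
  refine ⟨min c1 1, lt_min hc1 one_pos, min_le_right _ _, ?_⟩
  intro L r K D hL hr hK hDK
  obtain ⟨n, hn⟩ : ∃ n : ℕ, L = n := ⟨L.toNat, by omega⟩
  have hn1 : 1 ≤ n := by omega
  refine (min_le_left _ _).trans ?_
  have h3 := (h1 n hn1 r (-(r + (L + 1)))).2
  rw [Pool.Agent.Helper69.RSW.perc_half_eq] at h3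
  refine h3.trans (P_transfer (GtS_up L) ?_)
  intro ω hω hB
  have e1 : r + (n : ℤ) = (r + (L + 1)) - 1 := by omega
  rw [e1] at hω hB
  exact GtS_of_BT (by omega) hr hK hDK (h1 := -(r + (L + 1)))
    (h2 := -(r + (L + 1)) + ((3 : ℕ) : ℤ) * n)
    (by omega) (by push_cast; omega) hω hB

/-- thick slabs have crossings with probability close to one -/
theorem thickS {c : ℝ} {L K : ℤ} {D : Finset (ℤ × ℤ)} (hL : 1 ≤ L)
    (h : ∀ r : ℤ, L ≤ r → r + (L + 1) ≤ K → c ≤ P (Xe D r (r + (L + 1))) (GtS L)) (j : ℕ) :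
    ∀ r : ℤ, L ≤ r → r + j * (L + 1) ≤ K → 1 - (1 - c) ^ j ≤ P (Xe D r (r + j * (L + 1))) (GtS L) := by
  induction j with
  | zero =>
    intro r _ _
    rw [pow_zero, sub_self]
    exact P_nonneg _ _
  | succ j ih =>
    intro r hr hK
    set r1 : ℤ := r + j * (L + 1) with hr1
    have hj : (0 : ℤ) ≤ j * (L + 1) := mul_nonneg (by positivity) (by omega)
    have e1 : r + ((j + 1 : ℕ) : ℤ) * (L + 1) = r1 + (L + 1) := by rw [hr1]; push_cast; ring
    rw [e1] at hK ⊢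
    have hr2 : r ≤ r1 := by omega
    have i1 := ih r hr (by omega)
    rw [← hr1] at i1
    have i2 := h r1 (by omega) hK
    set F := Xe D r (r1 + (L + 1)) with hF
    have s1 : Xe D r r1 ⊆ F := Xe_mono le_rfl (by omega)
    have s2 : Xe D r1 (r1 + (L + 1)) ⊆ F := Xe_mono hr2 le_rfl
    have c1 := P_compl (Xe D r r1) (GtS L)
    have c2 := P_compl (Xe D r1 (r1 + (L + 1))) (GtS L)
    have c3 := P_compl F (GtS L)
    have d1 : P F (fun ω => ¬ GtS L ω) ≤ P F (fun ω => ¬ GtS L (ω ∩ Xe D r r1) ∧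
        ¬ GtS L (ω ∩ Xe D r1 (r1 + (L + 1)))) := by
      apply P_mono
      intro ω _ hn
      exact ⟨fun h => hn (h.mono inter_subset_left), fun h => hn (h.mono inter_subset_left)⟩
    have dep1 : Dep (Xe D r r1) (fun ω => ¬ GtS L (ω ∩ Xe D r r1)) := by
      intro S
      show ¬ GtS L (S ∩ Xe D r r1) ↔ ¬ GtS L (S ∩ Xe D r r1 ∩ Xe D r r1)
      rw [inter_assoc, inter_self]
    have dep2 : Dep (Xe D r1 (r1 + (L + 1))) (fun ω => ¬ GtS L (ω ∩ Xe D r1 (r1 + (L + 1)))) := by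
      intro S
      show ¬ GtS L (S ∩ Xe D r1 (r1 + (L + 1))) ↔
        ¬ GtS L (S ∩ Xe D r1 (r1 + (L + 1)) ∩ Xe D r1 (r1 + (L + 1)))
      rw [inter_assoc, inter_self]
    rw [P_indep s1 s2 (Xe_disj le_rfl) dep1 dep2] at d1
    have q1 : P F (fun ω => ¬ GtS L (ω ∩ Xe D r r1)) =
        P (Xe D r r1) (fun ω => ¬ GtS L ω) := H46.P_inter s1 (fun ω => ¬ GtS L ω)
    have q2 : P F (fun ω => ¬ GtS L (ω ∩ Xe D r1 (r1 + (L + 1)))) =
        P (Xe D r1 (r1 + (L + 1))) (fun ω => ¬ GtS L ω) := H46.P_inter s2 (fun ω => ¬ GtS L ω)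
    rw [q1, q2] at d1
    have n1 : 0 ≤ P (Xe D r r1) (fun ω => ¬ GtS L ω) := P_nonneg _ _
    have n2 : 0 ≤ P (Xe D r1 (r1 + (L + 1))) (fun ω => ¬ GtS L ω) := P_nonneg _ _
    have e2 : P (Xe D r r1) (fun ω => ¬ GtS L ω) ≤ (1 - c) ^ j := by linarith
    have e3 : P (Xe D r1 (r1 + (L + 1))) (fun ω => ¬ GtS L ω) ≤ 1 - c := by linarith
    have e4 : P (Xe D r r1) (fun ω => ¬ GtS L ω) *
        P (Xe D r1 (r1 + (L + 1))) (fun ω => ¬ GtS L ω) ≤ (1 - c) ^ j * (1 - c) :=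
      mul_le_mul e2 e3 n2 (n1.trans e2)
    rw [pow_succ]
    linarith

/-- **Localisation**: with a crossing of the strip beyond `r`, the part of a path from `A` either stays
in `D` or is joined to the crossing inside `D`. -/
theorem locS {L : ℤ} (hL : 0 < L) {D D' : Finset (ℤ × ℤ)} {K r r' : ℤ} (hK : r' ≤ K)
    (hDK : ∀ z ∈ D', z.1 ≤ K → z ∈ D)
    (hD' : ∀ z ∈ D', 0 ≤ z.1 + z.2 ∧ z.1 + z.2 ≤ L)
    {ω : Cfg} (hω : ω ⊆ edgesIn D') {c : ℤ × ℤ} (hc : CrS L (ω ∩ Xe D r r') c)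
    {a b : ℤ × ℤ} (haD : a ∈ D) (haD' : a ∈ D') (ha : a.1 ≤ r) (h : Joined ω a b) :
    (Joined (ω ∩ edgesIn D) a b ∧ b ∈ D) ∨ Joined (ω ∩ edgesIn D) a c := by
  classical
  obtain ⟨q, hq⟩ := joined_walk (fun e he => edge_lattice (hω he)) h
  have hqD' := support_subset q (fun e he => hω (hq e he)) haD'
  have hXD : ω ∩ Xe D r r' ⊆ ω ∩ edgesIn D := inter_subset_inter_left Xe_edges
  by_cases hall : ∀ w ∈ q.support, w ∈ D
  · left
    refine ⟨walk_joined q fun e he => ?_, hall b q.end_mem_support⟩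
    rw [mem_inter]
    refine ⟨hq e he, ?_⟩
    induction e using Sym2.ind with
    | _ z z' =>
      rw [mem_edgesIn]
      exact ⟨hall z (Walk.fst_mem_support_of_mem_edges _ he),
        hall z' (Walk.snd_mem_support_of_mem_edges _ he), (mem_edgesIn.1 (hω (hq _ he))).2.2⟩
  · right
    push_neg at hall
    obtain ⟨z, hz, hzD⟩ := hall
    -- the walk up to `z`
    set q0 := q.takeUntil z hz with hq0
    have hq0e : ∀ e ∈ q0.edges, e ∈ q.edges := fun e he => q.edges_takeUntil_subset_edges hz he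
    have hq0s : ∀ w ∈ q0.support, w ∈ q.support := fun w hw => q.support_takeUntil_subset hz hw
    obtain ⟨d, hd, q₁, h1, h2, h3, h4⟩ := first_visit
      (fun w : ℤ × ℤ => w ∉ D ∨ Joined (ω ∩ edgesIn D) c w) q0 (Or.inl hzD)
    have hcD : c ∈ D := (hc.vert hL inter_subset_right).1
    have hdj : Joined (ω ∩ edgesIn D) c d := by
      rcases hd with hd | hd
      · have hdD' : d ∈ D' := hqD' d (hq0s d (h2 d q₁.end_mem_support))
        have hdx : K < d.1 := by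
          by_contra hcon
          exact hd (hDK d hdD' (by omega))
        obtain ⟨w, hw1, hw2⟩ := meetS hL inter_subset_right hc q₁
          (fun w hw => hD' w (hqD' w (hq0s w (h2 w hw)))) ha (by omega)
        have hw3 := joined_mono hXD hw2
        by_cases hwd : w = d
        · rwa [← hwd]
        · exact absurd (Or.inr hw3) (h3 w hw1 hwd)
      · exact hd
    have hdD : d ∈ D := by
      by_cases hcd : c = d
      · rwa [← hcd]
      · obtain ⟨p⟩ := joined_symm hdj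
        cases p with
        | nil => exact absurd rfl hcd
        | @cons _ b' _ hab p =>
          rw [SimpleGraph.fromEdgeSet_adj] at hab
          have hab1 : s(d, b') ∈ ω ∩ edgesIn D := by exact_mod_cast hab.1
          exact (mem_edgesIn.1 (mem_inter.1 hab1).2).1
    have hj : Joined (ω ∩ edgesIn D) a d := by
      apply walk_joined q₁
      intro e he
      have he1 := hq e (hq0e e (h1 e he))
      rw [mem_inter]
      refine ⟨he1, ?_⟩
      have hmem : ∀ w ∈ q₁.support, w ∈ D := by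
        intro w hw
        by_cases hwd : w = d
        · rwa [hwd]
        · by_contra hcon
          exact h3 w hw hwd (Or.inl hcon)
      induction e using Sym2.ind with
      | _ z z' =>
        rw [mem_edgesIn]
        exact ⟨hmem z (Walk.fst_mem_support_of_mem_edges _ he),
          hmem z' (Walk.snd_mem_support_of_mem_edges _ he), (mem_edgesIn.1 (hω he1)).2.2⟩
    exact joined_trans hj (joined_symm hdj)

/-- the side `x + y = t` is reached from `A` -/
def Sd (A : Finset (ℤ × ℤ)) (t : ℤ) (ω : Cfg) : Prop :=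
  ∃ x ∈ A, ∃ z : ℤ × ℤ, z.1 + z.2 = t ∧ Joined ω x z

lemma Sd_up (A : Finset (ℤ × ℤ)) (t : ℤ) : Up (Sd A t) := by
  rintro S T h ⟨x, hx, y, hy, hj⟩
  exact ⟨x, hx, y, hy, joined_mono h hj⟩

/-- **Comparison of domains.** -/
theorem compareS : ∃ c : ℝ, 0 < c ∧ c ≤ 1 ∧ ∀ (L K : ℤ) (j : ℕ) (D D' : Finset (ℤ × ℤ)), 1 ≤ L →
    2 * L + j * (L + 1) ≤ K → D ⊆ D' →
    (∀ z ∈ D', z.1 ≤ K → z ∈ D) → (∀ z ∈ D', 0 ≤ z.1 + z.2 ∧ z.1 + z.2 ≤ L) →
    (∀ z : ℤ × ℤ, 0 ≤ z.1 + z.2 → z.1 + z.2 ≤ L → 1 ≤ z.1 - z.2 → z.1 ≤ K → z ∈ D) →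
    (∀ A B : Finset (ℤ × ℤ), A ⊆ D → B ⊆ D → (∀ x ∈ A, x.1 ≤ 2 * L) → (∀ x ∈ B, x.1 ≤ 2 * L) →
      (1 - (1 - c) ^ j) * perc half D' (JJ A B) ≤ perc half D (JJ A B)) ∧
    (∀ (A : Finset (ℤ × ℤ)) (t : ℤ), A ⊆ D → (∀ x ∈ A, x.1 ≤ 2 * L) → (t = 0 ∨ t = L) →
      (1 - (1 - c) ^ j) * perc half D' (Sd A t) ≤ perc half D (Sd A t)) := by
  obtain ⟨c, hc, hc1, hr⟩ := slabS_rsw
  refine ⟨c, hc, hc1, ?_⟩
  intro L K j D D' hL hK hDD' hDK hD' hDs
  have hth := thickS hL (fun r h1 h2 => hr L r K D hL h1 h2 hDs) j (2 * L) (by omega) hK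
  set r' : ℤ := 2 * L + j * (L + 1) with hr'
  have hsub : Xe D (2 * L) r' ⊆ edgesIn D' := Xe_edges.trans (edgesIn_mono hDD')
  have key : ∀ A : Cfg → Prop, Up A →
      (∀ ω ⊆ edgesIn D', A ω → (∃ c, CrS L (ω ∩ Xe D (2 * L) r') c) → A (ω ∩ edgesIn D)) →
      (1 - (1 - c) ^ j) * perc half D' A ≤ perc half D A := by
    intro A hA h
    rw [Pool.Agent.Helper69.RSW.perc_half_eq, Pool.Agent.Helper69.RSW.perc_half_eq]
    have e : P (edgesIn D') (fun ω => GtS L (ω ∩ Xe D (2 * L) r')) = P (Xe D (2 * L) r') (GtS L) :=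
      H46.P_inter hsub (GtS L)
    have u : Up (fun ω : Cfg => GtS L (ω ∩ Xe D (2 * L) r')) :=
      fun S T hST h => h.mono (inter_subset_inter_right hST)
    have h3 := harris (edgesIn D') u hA
    rw [e] at h3
    have h4 : P (edgesIn D') (fun ω => GtS L (ω ∩ Xe D (2 * L) r') ∧ A ω) ≤ P (edgesIn D) A := by
      have e5 : P (edgesIn D') (fun ω => A (ω ∩ edgesIn D)) = P (edgesIn D) A :=
        H46.P_inter (edgesIn_mono hDD') A
      rw [← e5]
      apply P_mono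
      rintro ω hω ⟨h5, h6⟩
      exact h ω hω h6 h5
    calc _ ≤ P (Xe D (2 * L) r') (GtS L) * P (edgesIn D') A :=
          mul_le_mul_of_nonneg_right hth (P_nonneg _ _)
      _ ≤ _ := h3.trans h4
  constructor
  · intro A B hA hB hAx hBx
    refine key _ (JJ_up A B) ?_
    rintro ω hω ⟨x, hx, y, hy, hj⟩ ⟨c, hc⟩
    have g1 := locS (by omega) hK hDK hD' hω hc (hA hx) (hDD' (hA hx)) (hAx x hx) hj
    have g2 := locS (by omega) hK hDK hD' hω hc (hB hy) (hDD' (hB hy)) (hBx y hy) (joined_symm hj)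
    rcases g1 with g1 | g1
    · exact ⟨x, hx, y, hy, g1.1⟩
    · rcases g2 with g2 | g2
      · exact ⟨x, hx, y, hy, joined_symm g2.1⟩
      · exact ⟨x, hx, y, hy, joined_trans g1 (joined_symm g2)⟩
  · intro A t hA hAx ht
    refine key _ (Sd_up A t) ?_
    rintro ω hω ⟨x, hx, y, hy, hj⟩ ⟨c, hc⟩
    have g1 := locS (by omega) hK hDK hD' hω hc (hA hx) (hDD' (hA hx)) (hAx x hx) hj
    rcases g1 with g1 | g1
    · exact ⟨x, hx, y, hy, g1.1⟩
    · obtain ⟨lo, up, h1, h2, h3, h4⟩ := hc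
      have hXD : ω ∩ Xe D (2 * L) r' ⊆ ω ∩ edgesIn D := inter_subset_inter_left Xe_edges
      rcases ht with rfl | rfl
      · exact ⟨x, hx, lo, h1, joined_trans g1 (joined_mono hXD h3)⟩
      · exact ⟨x, hx, up, h2, joined_trans g1 (joined_mono hXD h4)⟩

end RatioLimit
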